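import Pool.Agent.Lib.MP_514644_pr.Mod

open MeasureTheory

namespace MP514644

/-- the law of the colouring in the internal model -/
noncomputable def mu (ν : Measure (Fin 3)) : Measure Om := Measure.infinitePi (fun _ : Z3 => ν)

instance (ν : Measure (Fin 3)) [IsProbabilityMeasure ν] : IsProbabilityMeasure (mu ν) := by
  unfold mu; infer_instance

/-- `c'` is a recolouring of `c` at finitely many cells -/
def FR (c c' : Om) : Prop := {z | c' z ≠ c z}.Finite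

/-- the height of the lowest cell of `s` -/
noncomputable def lev (u : Fin 4 → ℝ) (s : Sta) : ℝ :=
  Finset.univ.inf' ⟨0, Finset.mem_univ 0⟩ (fun k => ht u (pt s k))

theorem le_lev {u : Fin 4 → ℝ} {y : ℝ} {s : Sta} : y ≤ lev u s ↔ Up u y s := by
  simp [lev, Up, Finset.le_inf'_iff]

theorem lev_le (u : Fin 4 → ℝ) (s : Sta) (k : Fin 4) : lev u s ≤ ht u (pt s k) :=
  (le_lev.1 le_rfl) k

theorem exists_lev (u : Fin 4 → ℝ) (s : Sta) : ∃ k, lev u s = ht u (pt s k) := by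
  obtain ⟨k, -, hk⟩ := Finset.exists_mem_eq_inf' (s := (Finset.univ : Finset (Fin 4)))
    ⟨0, Finset.mem_univ 0⟩ (fun k => ht u (pt s k))
  exact ⟨k, hk⟩

theorem lev_sh (u : Fin 4 → ℝ) (t : Z3) (s : Sta) : lev u (sh t s) = lev u s + ht u t := by
  apply le_antisymm
  · rw [← sub_le_iff_le_add, le_lev, ← Up_sh, ← le_lev]
  · rw [le_lev, Up_sh, ← le_lev]; linarith

theorem Up.anti {u : Fin 4 → ℝ} {y y' : ℝ} (h : y' ≤ y) {s : Sta} (hs : Up u y s) : Up u y' s :=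
  fun k => h.trans (hs k)

/-- `s` is the last lowest state on its (infinite) orbit -/
def Sp (u : Fin 4 → ℝ) (c : Om) (s : Sta) : Prop :=
  tri c s ∧ Inf c s ∧ (∀ n : ℤ, lev u s ≤ lev u (orb c n s)) ∧
    ∀ n : ℤ, 0 < n → lev u s < lev u (orb c n s)

/-- coordinates modulo the constant vectors -/
def co (d : Z3) : Fin 4 → ℤ := ![d.1, d.2.1, d.2.2, 0]

/-- the order cone -/
def inD (u : Fin 4 → ℝ) (d : Z3) : Prop := ∀ i j, 0 < u i → u j < 0 → co d i ≤ co d j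

/-- the orbit of `s` touches the cell `z` -/
def Tch (c : Om) (s : Sta) (z : Z3) : Prop := ∃ (n : ℤ) (k : Fin 4), pt (orb c n s) k = z

/-- no descending ray at level `y`, robustly -/
def NoR (u : Fin 4 → ℝ) (y : ℝ) (c : Om) : Prop := ∀ c', FR c c' → ∀ s, ¬ Rb u y c' s

/-- adjacency in the internal model (difference `d`) -/
def adjZ (d : Z3) : Prop :=
  d ≠ 0 ∧ ((0 ≤ d.1 ∧ d.1 ≤ 1 ∧ 0 ≤ d.2.1 ∧ d.2.1 ≤ 1 ∧ 0 ≤ d.2.2 ∧ d.2.2 ≤ 1) ∨
    (-1 ≤ d.1 ∧ d.1 ≤ 0 ∧ -1 ≤ d.2.1 ∧ d.2.1 ≤ 0 ∧ -1 ≤ d.2.2 ∧ d.2.2 ≤ 0))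

instance (d : Z3) : Decidable (adjZ d) := by unfold adjZ; infer_instance

/-- the entry face of a state -/
def ent (s : Sta) : Finset Z3 := {pt s 1, pt s 2, pt s 3}

/-- the tetrahedron of a state -/
def tet (s : Sta) : Finset Z3 := {pt s 0, pt s 1, pt s 2, pt s 3}

/-- mutually adjacent cells -/
def Cliq (e : Finset Z3) : Prop := ∀ x ∈ e, ∀ y ∈ e, x ≠ y → adjZ (y - x)

end MP514644
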