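import Mathlib

/-!
Public definitions for MP_514644_pr: cells, edges, vertices, tricolor paths.
-/

open MeasureTheory

namespace MP514644

/-- The cells: points of `2ℤ³ ∪ (2ℤ³ + (1,1,1))`, that is the integer points whose three
coordinates have the same parity. -/
def Cell : Type := {x : Fin 3 → ℤ // ∀ i j, x i % 2 = x j % 2}

/-- Two cells are adjacent: their difference is `(±2,0,0)`, `(0,±2,0)`, `(0,0,±2)` or
`(±1,±1,±1)`. -/
def CAdj (x y : Cell) : Prop :=
  (∃ i, |x.1 i - y.1 i| = 2 ∧ ∀ j, j ≠ i → x.1 j = y.1 j) ∨ ∀ i, |x.1 i - y.1 i| = 1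

/-- Edges of the tessellation: sets of three mutually adjacent cells. -/
def IsEdge (e : Finset Cell) : Prop :=
  e.card = 3 ∧ ∀ x ∈ e, ∀ y ∈ e, x ≠ y → CAdj x y

/-- Vertices of the tessellation: sets of four mutually adjacent cells. -/
def IsVertex (q : Finset Cell) : Prop :=
  q.card = 4 ∧ ∀ x ∈ q, ∀ y ∈ q, x ≠ y → CAdj x y

/-- A tricolor edge: its three cells have three distinct colours. -/
def TriEdge (c : Cell → Fin 3) (e : Finset Cell) : Prop :=
  IsEdge e ∧ ∀ x ∈ e, ∀ y ∈ e, c x = c y → x = y

/-- A tricolor vertex: its four cells use all three colours. -/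
def TriVertex (c : Cell → Fin 3) (q : Finset Cell) : Prop :=
  IsVertex q ∧ ∀ i, ∃ x ∈ q, c x = i

/-- A (one sided) infinite tricolor path: a sequence of distinct tricolor edges, any two
consecutive ones being incident to a common tricolor vertex. -/
def InfPath (c : Cell → Fin 3) (e : ℕ → Finset Cell) : Prop :=
  Function.Injective e ∧ (∀ n, TriEdge c (e n)) ∧
    ∀ n, ∃ q, TriVertex c q ∧ e n ⊆ q ∧ e (n + 1) ⊆ q

/-- The law of the colouring: all the cells get independent colours with law `ν`. -/
noncomputable def law (ν : Measure (Fin 3)) : Measure (Cell → Fin 3) :=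
  Measure.infinitePi (fun _ : Cell => ν)

/-- The linear functional `x ↦ v · x` on cells. -/
noncomputable def dot (v : Fin 3 → ℝ) (x : Cell) : ℝ := ∑ i, v i * (x.1 i : ℝ)

end MP514644
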