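import Mathlib

/-!
Internal model for MP_514644_pr.

Cells are the points of `Z3 = ℤ × ℤ × ℤ`, two cells being adjacent when their difference is
`±` a nonzero 0/1 vector.  With `g : Fin 4 → Z3`, `e₁, e₂, e₃, -(e₁+e₂+e₃)`, the sets of four
mutually adjacent cells are the `{w, w+g(π 0), w+g(π 0)+g(π 1), w-g(π 3)}`.

A state `s = (w, π)` is such a tetrahedron together with its new cell `w = pt s 0`; its entry
face is `{pt s 1, pt s 2, pt s 3}`.
-/

open MeasureTheory

namespace MP514644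

abbrev Z3 := ℤ × ℤ × ℤ

/-- colourings -/
abbrev Om := Z3 → Fin 3

/-- states -/
abbrev Sta := Z3 × Equiv.Perm (Fin 4)

def g : Fin 4 → Z3 := ![(1,0,0), (0,1,0), (0,0,1), (-1,-1,-1)]

/-- the four cells of a state; `pt s 0` is the new cell -/
def pt (s : Sta) : Fin 4 → Z3 :=
  ![s.1, s.1 + g (s.2 0), s.1 + g (s.2 0) + g (s.2 1), s.1 - g (s.2 3)]

def sg : Fin 4 → Equiv.Perm (Fin 4) :=
  ![⟨![3,1,2,0], ![3,1,2,0], by decide, by decide⟩,
    ⟨![0,2,3,1], ![0,3,1,2], by decide, by decide⟩,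
    ⟨![1,3,0,2], ![2,0,3,1], by decide, by decide⟩,
    ⟨![2,0,1,3], ![1,2,0,3], by decide, by decide⟩]

/-- `mv j s`: the state reached by leaving through the face opposite to `pt s j`
(`j = 1, 2, 3`); `mv 0` turns back through the entry face. -/
def mv (j : Fin 4) (s : Sta) : Sta :=
  (![s.1 - g (s.2 3) + g (s.2 0), s.1 + g (s.2 1), s.1 + g (s.2 0) + g (s.2 2),
     s.1 - g (s.2 2)] j, s.2 * sg j)

def tri (c : Om) (s : Sta) : Prop :=
  c (pt s 1) ≠ c (pt s 2) ∧ c (pt s 2) ≠ c (pt s 3) ∧ c (pt s 1) ≠ c (pt s 3)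

instance (c : Om) (s : Sta) : Decidable (tri c s) := by unfold tri; infer_instance

/-- the next state along the tricolor line (and `s` itself if the entry face is not tricolor) -/
def nxt (c : Om) (s : Sta) : Sta :=
  if tri c s then
    (if c (pt s 1) = c (pt s 0) then mv 1 s
      else if c (pt s 2) = c (pt s 0) then mv 2 s else mv 3 s)
  else s

theorem g_inj : Function.Injective g := by decide

theorem g_sum (π : Equiv.Perm (Fin 4)) : g (π 0) + g (π 1) + g (π 2) + g (π 3) = 0 := by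
  revert π; decide

theorem pt_zero (s : Sta) : pt s 0 = s.1 := rfl
theorem pt_one (s : Sta) : pt s 1 = s.1 + g (s.2 0) := rfl
theorem pt_two (s : Sta) : pt s 2 = s.1 + g (s.2 0) + g (s.2 1) := rfl
theorem pt_three (s : Sta) : pt s 3 = s.1 - g (s.2 3) := rfl

theorem pt_three' (s : Sta) : pt s 3 = s.1 + g (s.2 0) + g (s.2 1) + g (s.2 2) := by
  have h := g_sum s.2
  rw [pt_three, eq_comm, eq_sub_iff_add_eq]
  calc s.1 + g (s.2 0) + g (s.2 1) + g (s.2 2) + g (s.2 3)
      = s.1 + (g (s.2 0) + g (s.2 1) + g (s.2 2) + g (s.2 3)) := by abel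
    _ = s.1 := by rw [h, add_zero]

theorem pt_mv (j k : Fin 4) (hk : k ≠ 0) (s : Sta) : pt (mv j s) k = pt s (k + j) := by
  have h := g_sum s.2
  obtain ⟨w, π⟩ := s
  have h3 : g (π 3) = -(g (π 0) + g (π 1) + g (π 2)) := by
    have : g (π 3) = (g (π 0) + g (π 1) + g (π 2) + g (π 3)) - (g (π 0) + g (π 1) + g (π 2)) := by
      abel
    rw [this, h, zero_sub]
  fin_cases k
  · exact absurd rfl hk
  all_goals
    fin_cases j <;>
    simp [pt, mv, sg, h3] <;> abel

theorem mv_zero_mv_zero (s : Sta) : mv 0 (mv 0 s) = s := by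
  obtain ⟨w, π⟩ := s
  refine Prod.ext ?_ ?_
  · simp [mv, sg]
  · ext i; fin_cases i <;> simp [mv, sg]

theorem mv_neg (j : Fin 4) (s : Sta) : mv (-j) (mv 0 (mv j s)) = mv 0 s := by
  have h := g_sum s.2
  obtain ⟨w, π⟩ := s
  have h3 : g (π 3) = -(g (π 0) + g (π 1) + g (π 2)) := by
    have : g (π 3) = (g (π 0) + g (π 1) + g (π 2) + g (π 3)) - (g (π 0) + g (π 1) + g (π 2)) := by
      abel
    rw [this, h, zero_sub]
  fin_cases j
  · exact mv_zero_mv_zero _
  · refine Prod.ext ?_ ?_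
    · simp only [mv, sg, Fin.mk_one, Fin.isValue, Equiv.Perm.coe_mul, Function.comp_apply]
      have : (-1 : Fin 4) = 3 := by decide
      rw [this]
      simp [h3] <;> abel
    · ext i
      have : (-1 : Fin 4) = 3 := by decide
      fin_cases i <;> simp [mv, sg, this]
  · refine Prod.ext ?_ ?_
    · have : (-2 : Fin 4) = 2 := by decide
      simp [mv, sg, this, h3] <;> abel
    · ext i
      have : (-2 : Fin 4) = 2 := by decide
      fin_cases i <;> simp [mv, sg, this]
  · refine Prod.ext ?_ ?_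
    · have : (-3 : Fin 4) = 1 := by decide
      simp [mv, sg, this, h3] <;> abel
    · ext i
      have : (-3 : Fin 4) = 1 := by decide
      fin_cases i <;> simp [mv, sg, this]

theorem fin3_four {a b c d : Fin 3} (h1 : a ≠ b) (h2 : b ≠ c) (h3 : a ≠ c) :
    d = a ∨ d = b ∨ d = c := by
  revert a b c d; decide

/-- a tricolor state moves by some `mv j` with `c (pt s j) = c (pt s 0)` -/
theorem nxt_spec {c : Om} {s : Sta} (h : tri c s) :
    ∃ j : Fin 4, j ≠ 0 ∧ c (pt s j) = c (pt s 0) ∧ nxt c s = mv j s := by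
  rcases fin3_four (d := c (pt s 0)) h.1 h.2.1 h.2.2 with h0 | h0 | h0
  · exact ⟨1, by decide, h0.symm, by simp [nxt, h, h0]⟩
  · refine ⟨2, by decide, h0.symm, ?_⟩
    have : c (pt s 1) ≠ c (pt s 0) := by rw [h0]; exact h.1
    simp [nxt, h, this, h0.symm]
  · refine ⟨3, by decide, h0.symm, ?_⟩
    have h1 : c (pt s 1) ≠ c (pt s 0) := by rw [h0]; exact h.2.2
    have h2 : c (pt s 2) ≠ c (pt s 0) := by rw [h0]; exact h.2.1
    simp [nxt, h, h1, h2]

theorem nxt_eq_mv {c : Om} {s : Sta} (h : tri c s) {j : Fin 4} (hj : j ≠ 0)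
    (hc : c (pt s j) = c (pt s 0)) : nxt c s = mv j s := by
  obtain ⟨i, hi, hci, hn⟩ := nxt_spec h
  have hij : i = j := by
    by_contra hne
    have he : c (pt s i) = c (pt s j) := by rw [hci, hc]
    obtain ⟨h1, h2, h3⟩ := h
    fin_cases i <;> fin_cases j <;> simp_all
  rw [hn, hij]

theorem nxt_of_not_tri {c : Om} {s : Sta} (h : ¬ tri c s) : nxt c s = s := by
  simp [nxt, h]

theorem tri_mv_zero {c : Om} {s : Sta} : tri c (mv 0 s) ↔ tri c s := by
  unfold tri
  rw [pt_mv 0 1 (by decide), pt_mv 0 2 (by decide), pt_mv 0 3 (by decide)]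
  simp

/-- three of the four cells of a tricolor state, one being of the colour of the new cell -/
theorem tri_mv {c : Om} {s : Sta} (h : tri c s) {j : Fin 4} (hj : j ≠ 0)
    (hc : c (pt s j) = c (pt s 0)) : tri c (mv j s) := by
  unfold tri
  rw [pt_mv j 1 (by decide), pt_mv j 2 (by decide), pt_mv j 3 (by decide)]
  obtain ⟨h1, h2, h3⟩ := h
  fin_cases j
  · exact absurd rfl hj
  · change c (pt s 2) ≠ c (pt s 3) ∧ c (pt s 3) ≠ c (pt s 0) ∧ c (pt s 2) ≠ c (pt s 0)
    change c (pt s 1) = c (pt s 0) at hc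
    rw [← hc]
    exact ⟨h2, h3.symm, h1.symm⟩
  · change c (pt s 3) ≠ c (pt s 0) ∧ c (pt s 0) ≠ c (pt s 1) ∧ c (pt s 3) ≠ c (pt s 1)
    change c (pt s 2) = c (pt s 0) at hc
    rw [← hc]
    exact ⟨h2.symm, h1.symm, h3.symm⟩
  · change c (pt s 0) ≠ c (pt s 1) ∧ c (pt s 1) ≠ c (pt s 2) ∧ c (pt s 0) ≠ c (pt s 2)
    change c (pt s 3) = c (pt s 0) at hc
    rw [← hc]
    exact ⟨h3.symm, h1, h2.symm⟩

theorem tri_nxt {c : Om} {s : Sta} : tri c (nxt c s) ↔ tri c s := by
  by_cases h : tri c s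
  · obtain ⟨j, hj, hc, hn⟩ := nxt_spec h
    rw [hn]
    exact ⟨fun _ => h, fun _ => tri_mv h hj hc⟩
  · rw [nxt_of_not_tri h]

/-- reversibility of the dynamics -/
theorem nxt_rev (c : Om) (s : Sta) : nxt c (mv 0 (nxt c s)) = mv 0 s := by
  by_cases h : tri c s
  · obtain ⟨j, hj, hc, hn⟩ := nxt_spec h
    rw [hn]
    have ht : tri c (mv 0 (mv j s)) := tri_mv_zero.2 (tri_mv h hj hc)
    have hj' : -j ≠ 0 := by simpa using hj
    rw [nxt_eq_mv ht hj', mv_neg]
    -- colours
    rw [pt_mv 0 (-j) hj', add_zero, pt_mv j (-j) hj', neg_add_cancel]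
    -- the new cell of `mv 0 (mv j s)` is `pt s j`
    have h0 : pt (mv 0 (mv j s)) 0 = pt s j := by
      have hs := g_sum s.2
      obtain ⟨w, π⟩ := s
      have h3 : g (π 3) = -(g (π 0) + g (π 1) + g (π 2)) := by
        have : g (π 3) = (g (π 0) + g (π 1) + g (π 2) + g (π 3))
            - (g (π 0) + g (π 1) + g (π 2)) := by abel
        rw [this, hs, zero_sub]
      fin_cases j
      · exact absurd rfl hj
      all_goals
        simp [pt, mv, sg, h3] <;> abel
    rw [h0, hc]
  · rw [nxt_of_not_tri h, nxt_of_not_tri (fun h' => h (tri_mv_zero.1 h'))]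

/-- the dynamics as a permutation of the states -/
def T (c : Om) : Equiv.Perm Sta where
  toFun := nxt c
  invFun s := mv 0 (nxt c (mv 0 s))
  left_inv s := by
    change mv 0 (nxt c (mv 0 (nxt c s))) = s
    rw [nxt_rev, mv_zero_mv_zero]
  right_inv s := by
    change nxt c (mv 0 (nxt c (mv 0 s))) = s
    have h := nxt_rev c (mv 0 s)
    rw [h, mv_zero_mv_zero]

def orb (c : Om) (n : ℤ) (s : Sta) : Sta := ((T c) ^ n) s

theorem orb_zero (c : Om) (s : Sta) : orb c 0 s = s := rfl

theorem orb_add (c : Om) (m n : ℤ) (s : Sta) : orb c (m + n) s = orb c m (orb c n s) := by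
  simp [orb, zpow_add]

theorem orb_one (c : Om) (s : Sta) : orb c 1 s = nxt c s := by
  simp only [orb, zpow_one]; rfl

theorem orb_succ (c : Om) (n : ℤ) (s : Sta) : orb c (n + 1) s = nxt c (orb c n s) := by
  rw [add_comm, orb_add, orb_one]

theorem orb_neg_orb (c : Om) (n : ℤ) (s : Sta) : orb c (-n) (orb c n s) = s := by
  rw [← orb_add, neg_add_cancel, orb_zero]

theorem orb_orb_neg (c : Om) (n : ℤ) (s : Sta) : orb c n (orb c (-n) s) = s := by
  rw [← orb_add, add_neg_cancel, orb_zero]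

theorem orb_injective (c : Om) (n : ℤ) : Function.Injective (orb c n) :=
  fun a b h => by rw [← orb_neg_orb c n a, h, orb_neg_orb]

theorem tri_orb (c : Om) (n : ℤ) (s : Sta) : tri c (orb c n s) ↔ tri c s := by
  induction n using Int.induction_on with
  | zero => rw [orb_zero]
  | succ n ih => rw [orb_succ, tri_nxt, ih]
  | pred n ih =>
    have h : orb c (-(n : ℤ)) s = nxt c (orb c (-(n : ℤ) - 1) s) := by
      rw [← orb_succ]; congr 1; ring
    rw [h, tri_nxt] at ih
    exact ih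

theorem orb_eq_of_nxt {c : Om} {f : ℤ → Sta} (h : ∀ n, f (n + 1) = nxt c (f n)) (n : ℤ) :
    f n = orb c n (f 0) := by
  induction n using Int.induction_on with
  | zero => rw [orb_zero]
  | succ n ih => rw [orb_succ, h, ih]
  | pred n ih =>
    have h1 : nxt c (f (-(n : ℤ) - 1)) = nxt c (orb c (-(n : ℤ) - 1) (f 0)) := by
      rw [← h, ← orb_succ]
      have : -(n : ℤ) - 1 + 1 = -(n : ℤ) := by ring
      rw [this, ih]
    exact (T c).injective h1

/-! heights -/

noncomputable def ht (u : Fin 4 → ℝ) (z : Z3) : ℝ :=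
  (z.1 : ℝ) * u 0 + (z.2.1 : ℝ) * u 1 + (z.2.2 : ℝ) * u 2

theorem ht_add (u : Fin 4 → ℝ) (a b : Z3) : ht u (a + b) = ht u a + ht u b := by
  simp only [ht, Prod.fst_add, Prod.snd_add]; push_cast; ring

theorem ht_neg (u : Fin 4 → ℝ) (a : Z3) : ht u (-a) = -ht u a := by
  simp only [ht, Prod.fst_neg, Prod.snd_neg]; push_cast; ring

theorem ht_sub (u : Fin 4 → ℝ) (a b : Z3) : ht u (a - b) = ht u a - ht u b := by
  rw [sub_eq_add_neg, ht_add, ht_neg]; ring

theorem ht_zero (u : Fin 4 → ℝ) : ht u 0 = 0 := by simp [ht]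

theorem ht_g {u : Fin 4 → ℝ} (hu : ∑ i, u i = 0) (i : Fin 4) : ht u (g i) = u i := by
  rw [Fin.sum_univ_four] at hu
  fin_cases i
  · simp [ht, g]
  · simp [ht, g]
  · simp [ht, g]
  · simp [ht, g]; linarith

/-- the whole tetrahedron of `s` is at height at least `y` -/
def Up (u : Fin 4 → ℝ) (y : ℝ) (s : Sta) : Prop := ∀ k, y ≤ ht u (pt s k)

/-- `s` is a tricolor state which is not up, but all its (strict) past is up -/
def Rb (u : Fin 4 → ℝ) (y : ℝ) (c : Om) (s : Sta) : Prop :=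
  tri c s ∧ ¬ Up u y s ∧ ∀ n : ℤ, 0 < n → Up u y (orb c (-n) s)

/-- the orbit of `s` is infinite -/
def Inf (c : Om) (s : Sta) : Prop := ∀ n : ℤ, orb c n s = s → n = 0

theorem Inf.injective {c : Om} {s : Sta} (h : Inf c s) :
    Function.Injective (fun n : ℤ => orb c n s) := by
  intro m n hmn
  have h1 : orb c (m - n) s = s := by
    apply orb_injective c n
    rw [← orb_add]
    have : n + (m - n) = m := by ring
    rw [this]; exact hmn
  have := h _ h1
  omega

theorem Inf.orb {c : Om} {s : Sta} (h : Inf c s) (m : ℤ) : Inf c (orb c m s) := by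
  intro n hn
  apply h
  apply orb_injective c m
  rw [← orb_add, add_comm, orb_add]; exact hn

theorem Rb.inf {u : Fin 4 → ℝ} {y : ℝ} {c : Om} {s : Sta} (h : Rb u y c s) : Inf c s := by
  have key : ∀ n : ℤ, 0 < n → orb c (-n) s ≠ s := by
    intro n hn he
    exact h.2.1 (he ▸ h.2.2 n hn)
  intro n hn
  rcases lt_trichotomy n 0 with h0 | h0 | h0
  · have := key (-n) (by omega)
    rw [neg_neg] at this
    exact absurd hn this
  · exact h0
  · exfalso
    apply key n h0
    apply orb_injective c n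
    rw [orb_orb_neg, hn]

/-! fill and shifts -/

/-- the colouring obtained by giving the colour 0 to all the cells below height `y` -/
noncomputable def fill (u : Fin 4 → ℝ) (y : ℝ) (c : Om) : Om :=
  fun z => if y ≤ ht u z then c z else 0

def sh (t : Z3) (s : Sta) : Sta := (s.1 + t, s.2)

def shc (t : Z3) (c : Om) : Om := fun z => c (z + t)

theorem pt_sh (t : Z3) (s : Sta) (k : Fin 4) : pt (sh t s) k = pt s k + t := by
  fin_cases k <;> simp [pt, sh] <;> abel

theorem mv_sh (t : Z3) (s : Sta) (j : Fin 4) : mv j (sh t s) = sh t (mv j s) := by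
  refine Prod.ext ?_ rfl
  fin_cases j <;> simp [mv, sh] <;> abel

theorem tri_sh (t : Z3) (c : Om) (s : Sta) : tri c (sh t s) ↔ tri (shc t c) s := by
  simp [tri, pt_sh, shc]

theorem nxt_sh (t : Z3) (c : Om) (s : Sta) : nxt c (sh t s) = sh t (nxt (shc t c) s) := by
  by_cases h : tri c (sh t s)
  · obtain ⟨j, hj, hc, hn⟩ := nxt_spec ((tri_sh t c s).1 h)
    rw [hn, ← mv_sh]
    apply nxt_eq_mv h hj
    rw [pt_sh, pt_sh]
    exact hc
  · rw [nxt_of_not_tri h, nxt_of_not_tri (fun h' => h ((tri_sh t c s).2 h'))]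

theorem orb_sh (t : Z3) (c : Om) (n : ℤ) (s : Sta) :
    orb c n (sh t s) = sh t (orb (shc t c) n s) := by
  have := orb_eq_of_nxt (c := c) (f := fun n => sh t (orb (shc t c) n s))
    (fun n => by rw [nxt_sh, ← orb_succ]) n
  rw [orb_zero] at this
  exact this.symm

theorem Up_sh (u : Fin 4 → ℝ) (t : Z3) (y : ℝ) (s : Sta) :
    Up u y (sh t s) ↔ Up u (y - ht u t) s := by
  simp only [Up, pt_sh, ht_add, sub_le_iff_le_add]

theorem fill_shc (u : Fin 4 → ℝ) (t : Z3) (y : ℝ) (c : Om) :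
    shc t (fill u y c) = fill u (y - ht u t) (shc t c) := by
  funext z
  simp only [shc, fill, ht_add, sub_le_iff_le_add]

/-- the dynamics at `s` only depends on the colours of the four cells of `s` -/
theorem nxt_congr {c c' : Om} {s : Sta} (h : ∀ k, c (pt s k) = c' (pt s k)) :
    nxt c s = nxt c' s := by
  unfold nxt tri
  simp only [h]

theorem tri_congr {c c' : Om} {s : Sta} (h : ∀ k, c (pt s k) = c' (pt s k)) :
    tri c s ↔ tri c' s := by
  unfold tri
  simp only [h]

/-- two colourings which agree on the cells of the past of `s` give the same past -/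
theorem orb_neg_congr {c c' : Om} {s : Sta}
    (h : ∀ n : ℤ, 0 < n → ∀ k, c (pt (orb c (-n) s) k) = c' (pt (orb c (-n) s) k))
    (n : ℕ) : orb c' (-(n : ℤ)) s = orb c (-(n : ℤ)) s := by
  induction n with
  | zero => simp [orb_zero]
  | succ n ih =>
    have h1 : nxt c (orb c (-((n + 1 : ℕ) : ℤ)) s) = orb c (-(n : ℤ)) s := by
      rw [← orb_succ]; congr 1; push_cast; ring
    have h2 : nxt c' (orb c' (-((n + 1 : ℕ) : ℤ)) s) = orb c' (-(n : ℤ)) s := by
      rw [← orb_succ]; congr 1; push_cast; ring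
    have h3 : nxt c (orb c (-((n + 1 : ℕ) : ℤ)) s) = nxt c' (orb c (-((n + 1 : ℕ) : ℤ)) s) :=
      nxt_congr (h _ (by push_cast; omega))
    apply (T c').injective
    change nxt c' _ = nxt c' _
    rw [h2, ih, ← h1, h3]

/-- two colourings which agree on the cells of the future of `s` give the same future -/
theorem orb_pos_congr {c c' : Om} {s : Sta}
    (h : ∀ n : ℕ, ∀ k, c (pt (orb c n s) k) = c' (pt (orb c n s) k))
    (n : ℕ) : orb c' n s = orb c n s := by
  induction n with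
  | zero => simp [orb_zero]
  | succ n ih =>
    rw [Nat.cast_succ, orb_succ, orb_succ, ih]
    exact (nxt_congr (h n)).symm

end MP514644
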