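import Pool.Agent.Lib.MP_514644_pr.Base

open MeasureTheory

namespace MP514644

theorem measurable_shc (t : Z3) : Measurable (shc t) :=
  measurable_pi_lambda _ fun z => measurable_pi_apply (z + t)

/-- R01: shift invariance of the law -/
theorem mp_shc (ν : Measure (Fin 3)) [IsProbabilityMeasure ν] (t : Z3) :
    MeasurePreserving (shc t) (mu ν) (mu ν) := by
  refine ⟨measurable_shc t, ?_⟩
  refine Measure.eq_infinitePi (fun _ : Z3 => ν) fun s A hA => ?_
  have hs : MeasurableSet (Set.pi (s : Set Z3) A) := MeasurableSet.pi s.countable_toSet fun i _ => hA i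
  rw [Measure.map_apply (measurable_shc t) hs]
  have e : shc t ⁻¹' (Set.pi (s : Set Z3) A) =
      Set.pi ((s.map (addRightEmbedding t) : Finset Z3) : Set Z3) (fun w => A (w - t)) := by
    ext c
    simp only [Set.mem_preimage, Set.mem_pi, Finset.mem_coe, Finset.mem_map, addRightEmbedding_apply, shc]
    constructor
    · rintro h w ⟨z, hz, rfl⟩
      rw [add_sub_cancel_right]
      exact h z hz
    · intro h z hz
      have := h (z + t) ⟨z, hz, rfl⟩
      rwa [add_sub_cancel_right] at this
  rw [e, mu, Measure.infinitePi_pi (fun _ : Z3 => ν) (fun i _ => hA (i - t)), Finset.prod_map]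
  refine Finset.prod_congr rfl fun z _ => ?_
  rw [addRightEmbedding_apply, add_sub_cancel_right]

end MP514644
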