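import Pool.Agent.Lib.MP_514644_pr.Base

open MeasureTheory

namespace MP514644

theorem measurable_upd (x : Z3) :
    Measurable (fun p : Om × Fin 3 => (Function.update p.1 x p.2 : Om)) :=
  measurable_update'

theorem mp_upd (ν : Measure (Fin 3)) [IsProbabilityMeasure ν] (x : Z3) :
    MeasurePreserving (fun p : Om × Fin 3 => (Function.update p.1 x p.2 : Om))
      ((mu ν).prod ν) (mu ν) := by
  refine ⟨measurable_upd x, ?_⟩
  refine Measure.eq_infinitePi (fun _ : Z3 => ν) fun s A hA => ?_
  have hs : MeasurableSet (Set.pi (s : Set Z3) A) :=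
    MeasurableSet.pi s.countable_toSet fun i _ => hA i
  rw [Measure.map_apply (measurable_upd x) hs]
  by_cases hx : x ∈ s
  · have e : (fun p : Om × Fin 3 => (Function.update p.1 x p.2 : Om)) ⁻¹'
        (Set.pi (s : Set Z3) A) = (Set.pi ((s.erase x : Finset Z3) : Set Z3) A) ×ˢ A x := by
      ext ⟨c, a⟩
      simp only [Set.mem_preimage, Set.mem_pi, Finset.mem_coe, Set.mem_prod, Finset.mem_erase]
      constructor
      · intro h
        refine ⟨fun z hz => ?_, ?_⟩
        · have := h z hz.2
          rwa [Function.update_of_ne hz.1] at this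
        · have := h x hx
          rwa [Function.update_self] at this
      · rintro ⟨h1, h2⟩ z hz
        by_cases hzx : z = x
        · subst hzx
          rw [Function.update_self]; exact h2
        · rw [Function.update_of_ne hzx]; exact h1 z ⟨hzx, hz⟩
    rw [e, Measure.prod_prod, mu, Measure.infinitePi_pi (fun _ : Z3 => ν) (fun i _ => hA i),
      Finset.prod_erase_mul _ _ hx]
  · have e : (fun p : Om × Fin 3 => (Function.update p.1 x p.2 : Om)) ⁻¹'
        (Set.pi (s : Set Z3) A) = (Set.pi (s : Set Z3) A) ×ˢ (Set.univ : Set (Fin 3)) := by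
      ext ⟨c, a⟩
      simp only [Set.mem_preimage, Set.mem_pi, Finset.mem_coe, Set.mem_prod, Set.mem_univ,
        and_true]
      have hne : ∀ z ∈ s, z ≠ x := fun z hz h => hx (h ▸ hz)
      constructor
      · intro h z hz
        have := h z hz
        rwa [Function.update_of_ne (hne z hz)] at this
      · intro h z hz
        rw [Function.update_of_ne (hne z hz)]; exact h z hz
    rw [e, Measure.prod_prod, measure_univ, mul_one, mu,
      Measure.infinitePi_pi (fun _ : Z3 => ν) (fun i _ => hA i)]

theorem ae_upd (ν : Measure (Fin 3)) [IsProbabilityMeasure ν] (hν : ∀ i, ν {i} ≠ 0)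
    {P : Om → Prop} (h : ∀ᵐ c ∂mu ν, P c) (x : Z3) (a : Fin 3) :
    ∀ᵐ c ∂mu ν, P (Function.update c x a) := by
  have h1 : ∀ᵐ p ∂((mu ν).prod ν), P (Function.update p.1 x p.2) :=
    (mp_upd ν x).quasiMeasurePreserving.ae h
  filter_upwards [Measure.ae_ae_of_ae_prod h1] with c hc
  by_contra hn
  exact hν a (measure_mono_null (fun b (hb : b = a) => by rw [hb]; exact hn) hc)

theorem ae_foldl (ν : Measure (Fin 3)) [IsProbabilityMeasure ν] (hν : ∀ i, ν {i} ≠ 0)
    {P : Om → Prop} (h : ∀ᵐ c ∂mu ν, P c) (l : List (Z3 × Fin 3)) :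
    ∀ᵐ c ∂mu ν, P (l.foldl (fun (c : Om) q => (Function.update c q.1 q.2 : Om)) c) := by
  induction l with
  | nil => exact h
  | cons q l ih => exact ae_upd ν hν ih q.1 q.2

theorem foldl_upd (c' : Om) (L : List Z3) (c : Om) (z : Z3) (hz : z ∉ L → c' z = c z) :
    (L.map (fun z => (z, c' z))).foldl
      (fun (c : Om) q => (Function.update c q.1 q.2 : Om)) c z = c' z := by
  induction L generalizing c with
  | nil => exact (hz (by simp)).symm
  | cons x L ih =>
    apply ih
    intro hzL
    change c' z = Function.update c x (c' x) z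
    by_cases hzx : z = x
    · rw [hzx, Function.update_self]
    · rw [Function.update_of_ne hzx]
      exact hz (by simp [hzx, hzL])

/-- R02: finite recolourings of typical colourings are typical -/
theorem ae_recolor (ν : Measure (Fin 3)) [IsProbabilityMeasure ν] (hν : ∀ i, ν {i} ≠ 0)
    {P : Om → Prop} (h : ∀ᵐ c ∂mu ν, P c) :
    ∀ᵐ c ∂mu ν, ∀ c', FR c c' → P c' := by
  have h1 : ∀ᵐ c ∂mu ν, ∀ l : List (Z3 × Fin 3),
      P (l.foldl (fun (c : Om) q => (Function.update c q.1 q.2 : Om)) c) :=
    ae_all_iff.2 fun l => ae_foldl ν hν h l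
  filter_upwards [h1] with c hc c' hF
  have h2 := hc (((hF.toFinset).toList).map (fun z => (z, c' z)))
  have e : (((hF.toFinset).toList).map (fun z => (z, c' z))).foldl
      (fun (c : Om) q => (Function.update c q.1 q.2 : Om)) c = c' := by
    funext z
    apply foldl_upd
    intro hz
    by_contra hne
    exact hz (by simpa using hne)
  rwa [e] at h2

end MP514644
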