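import Pool.Agent.Lib.MP_514644_pr.Base

open MeasureTheory

namespace MP514644

theorem r03_eqc (a b : Z3) : MeasurableSet {c : Om | c a = c b} := by
  have : {c : Om | c a = c b} = ⋃ i : Fin 3, ((fun c : Om => c a) ⁻¹' {i}) ∩
      ((fun c : Om => c b) ⁻¹' {i}) := by
    ext c
    simp only [Set.mem_ofPred_eq, Set.mem_iUnion, Set.mem_inter_iff, Set.mem_preimage,
      Set.mem_singleton_iff]
    constructor
    · intro h; exact ⟨c b, h, rfl⟩
    · rintro ⟨i, h1, h2⟩; rw [h1, h2]
  rw [this]
  exact MeasurableSet.iUnion fun i =>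
    ((measurable_pi_apply a) (measurableSet_singleton i)).inter
      ((measurable_pi_apply b) (measurableSet_singleton i))

/-- R03: measurability facts -/
theorem mset_tri (s : Sta) : MeasurableSet {c : Om | tri c s} := by
  have h : {c : Om | tri c s} = {c : Om | c (pt s 1) = c (pt s 2)}ᶜ ∩
      ({c : Om | c (pt s 2) = c (pt s 3)}ᶜ ∩ {c : Om | c (pt s 1) = c (pt s 3)}ᶜ) := rfl
  rw [h]
  exact (r03_eqc _ _).compl.inter ((r03_eqc _ _).compl.inter (r03_eqc _ _).compl)

theorem r03_nxt (s : Sta) (Q : Set Sta) : MeasurableSet {c : Om | nxt c s ∈ Q} := by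
  have h : {c : Om | nxt c s ∈ Q} =
      ({c : Om | tri c s} ∩
        (({c : Om | c (pt s 1) = c (pt s 0)} ∩ {_c : Om | mv 1 s ∈ Q}) ∪
          ({c : Om | c (pt s 1) = c (pt s 0)}ᶜ ∩
            (({c : Om | c (pt s 2) = c (pt s 0)} ∩ {_c : Om | mv 2 s ∈ Q}) ∪
              ({c : Om | c (pt s 2) = c (pt s 0)}ᶜ ∩ {_c : Om | mv 3 s ∈ Q}))))) ∪
      ({c : Om | tri c s}ᶜ ∩ {_c : Om | s ∈ Q}) := by
    ext c
    simp only [Set.mem_ofPred_eq, Set.mem_union, Set.mem_inter_iff, Set.mem_compl_iff]
    unfold nxt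
    by_cases h1 : tri c s
    · by_cases h2 : c (pt s 1) = c (pt s 0)
      · simp [h1, h2]
      · by_cases h3 : c (pt s 2) = c (pt s 0)
        · simp [h1, h2, h3]
        · simp [h1, h2, h3]
    · simp [h1]
  rw [h]
  exact ((mset_tri s).inter
    (((r03_eqc _ _).inter (MeasurableSet.const _)).union
      ((r03_eqc _ _).compl.inter
        (((r03_eqc _ _).inter (MeasurableSet.const _)).union
          ((r03_eqc _ _).compl.inter (MeasurableSet.const _)))))).union
    ((mset_tri s).compl.inter (MeasurableSet.const _))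

theorem r03_orb_nat (n : ℕ) (s : Sta) (Q : Set Sta) :
    MeasurableSet {c : Om | orb c (n : ℤ) s ∈ Q} := by
  induction n generalizing Q with
  | zero =>
    have : {c : Om | orb c ((0 : ℕ) : ℤ) s ∈ Q} = {_c : Om | s ∈ Q} := rfl
    rw [this]
    exact MeasurableSet.const _
  | succ n ih =>
    have : {c : Om | orb c ((n + 1 : ℕ) : ℤ) s ∈ Q} =
        ⋃ s' : Sta, {c : Om | orb c (n : ℤ) s ∈ ({s'} : Set Sta)} ∩ {c : Om | nxt c s' ∈ Q} := by
      ext c
      simp only [Set.mem_ofPred_eq, Set.mem_iUnion, Set.mem_inter_iff, Set.mem_singleton_iff]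
      rw [Nat.cast_succ, orb_succ]
      constructor
      · intro h; exact ⟨_, rfl, h⟩
      · rintro ⟨s', h1, h2⟩; rw [h1]; exact h2
    rw [this]
    exact MeasurableSet.iUnion fun s' => (ih {s'}).inter (r03_nxt s' Q)

theorem mset_orb (n : ℤ) (s : Sta) (Q : Set Sta) : MeasurableSet {c : Om | orb c n s ∈ Q} := by
  obtain ⟨m, rfl | rfl⟩ := n.eq_nat_or_neg
  · exact r03_orb_nat m s Q
  · have : {c : Om | orb c (-(m : ℤ)) s ∈ Q} =
        ⋃ s' : Sta, {c : Om | orb c (m : ℤ) s' ∈ ({s} : Set Sta)} ∩ {_c : Om | s' ∈ Q} := by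
      ext c
      simp only [Set.mem_ofPred_eq, Set.mem_iUnion, Set.mem_inter_iff, Set.mem_singleton_iff]
      constructor
      · intro h; exact ⟨_, orb_orb_neg c m s, h⟩
      · rintro ⟨s', h1, h2⟩
        rw [← h1, orb_neg_orb]; exact h2
    rw [this]
    exact MeasurableSet.iUnion fun s' => (r03_orb_nat m s' {s}).inter (MeasurableSet.const _)

theorem mset_Inf (s : Sta) : MeasurableSet {c : Om | Inf c s} := by
  have : {c : Om | Inf c s} = ⋂ n : ℤ, {c : Om | orb c n s ∈ ({s} : Set Sta)}ᶜ ∪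
      {_c : Om | n = 0} := by
    ext c
    simp only [Set.mem_ofPred_eq, Set.mem_iInter, Set.mem_union, Set.mem_compl_iff,
      Set.mem_singleton_iff, Inf]
    constructor
    · intro h n
      by_cases h1 : orb c n s = s
      · exact Or.inr (h n h1)
      · exact Or.inl h1
    · intro h n h1
      rcases h n with h2 | h2
      · exact absurd h1 h2
      · exact h2
  rw [this]
  exact MeasurableSet.iInter fun n => (mset_orb n s {s}).compl.union (MeasurableSet.const _)

theorem measurable_fill (u : Fin 4 → ℝ) :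
    Measurable (fun x : ℝ × Om => fill u x.1 x.2) := by
  rw [measurable_pi_iff]
  intro z
  unfold fill
  exact Measurable.ite (measurableSet_le measurable_fst measurable_const)
    ((measurable_pi_apply z).comp measurable_snd) measurable_const

theorem mset_Up (u : Fin 4 → ℝ) (s : Sta) : MeasurableSet {y : ℝ | Up u y s} := by
  have : {y : ℝ | Up u y s} = ⋂ k : Fin 4, Set.Iic (ht u (pt s k)) := by
    ext y
    simp [Up]
  rw [this]
  exact MeasurableSet.iInter fun k => measurableSet_Iic

end MP514644
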