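import Pool.Agent.Lib.MP_514644_pr.Base

open MeasureTheory

namespace MP514644

/-- R04: mass transport.  `A w s` is the event that `w` sends a unit mass to `s`. -/
theorem mtp {Ω : Type*} [MeasurableSpace Ω] (m : Measure Ω) (θ : Z3 → Ω → Ω)
    (hθ : ∀ t, MeasurePreserving (θ t) m m) (A : Sta → Sta → Set Ω)
    (hA : ∀ w s, MeasurableSet (A w s))
    (hinv : ∀ t w s, A (sh t w) (sh t s) = θ t ⁻¹' A w s)
    (huniq : ∀ w s s' ω, ω ∈ A w s → ω ∈ A w s' → s = s')
    (hfin : ∀ π, m (⋃ s, A ((0 : Z3), π) s) ≠ ⊤) (s : Sta) :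
    ∀ᵐ ω ∂m, {w | ω ∈ A w s}.Finite := by
  apply ae_finite_setOfPred_mem
  obtain ⟨z, ρ⟩ := s
  have h1 : ∀ (x : Z3) (π : Equiv.Perm (Fin 4)),
      m (A (x, π) (z, ρ)) = m (A ((0 : Z3), π) (z - x, ρ)) := by
    intro x π
    have h := hinv x ((0 : Z3), π) (z - x, ρ)
    have e1 : sh x ((0 : Z3), π) = (x, π) := by
      simp [sh]
    have e2 : sh x (z - x, ρ) = (z, ρ) := by
      simp [sh]
    rw [e1, e2] at h
    rw [h]
    exact (hθ x).measure_preimage (hA _ _).nullMeasurableSet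
  have h2 : ∀ π : Equiv.Perm (Fin 4), ∑' x : Z3, m (A (x, π) (z, ρ)) ≠ ⊤ := by
    intro π
    have h3 : ∑' s' : Sta, m (A ((0 : Z3), π) s') = m (⋃ s', A ((0 : Z3), π) s') := by
      rw [measure_iUnion]
      · intro s' s'' hne
        rw [Function.onFun, Set.disjoint_left]
        intro ω h' h''
        exact hne (huniq _ _ _ _ h' h'')
      · intro s'
        exact hA _ _
    have h4 : ∑' x : Z3, m (A (x, π) (z, ρ)) ≤ ∑' s' : Sta, m (A ((0 : Z3), π) s') := by
      simp only [h1]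
      have hinj : Function.Injective (fun x : Z3 => ((z - x, ρ) : Sta)) := by
        intro x x' hx
        simpa using hx
      exact ENNReal.tsum_comp_le_tsum_of_injective hinj (fun s' : Sta => m (A ((0 : Z3), π) s'))
    rw [h3] at h4
    exact ne_top_of_le_ne_top (hfin π) h4
  rw [ENNReal.tsum_prod (f := fun (x : Z3) (π : Equiv.Perm (Fin 4)) => m (A (x, π) (z, ρ))), ENNReal.tsum_comm, tsum_fintype]
  exact (ENNReal.sum_lt_top.2 fun π _ => (h2 π).lt_top).ne

end MP514644
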