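import Pool.Agent.Lib.MP_514644_pr.R01
import Pool.Agent.Lib.MP_514644_pr.R03
import Pool.Agent.Lib.MP_514644_pr.R04

open MeasureTheory

namespace MP514644

theorem r05_sh_injective (t : Z3) : Function.Injective (sh t) := by
  intro a b h
  simp only [sh, Prod.mk.injEq, add_left_inj] at h
  exact Prod.ext h.1 h.2

theorem r05_Inf_sh (t : Z3) (c : Om) (s : Sta) : Inf c (sh t s) ↔ Inf (shc t c) s := by
  unfold Inf
  simp only [orb_sh, (r05_sh_injective t).eq_iff]

theorem r05_Sp_sh (u : Fin 4 → ℝ) (t : Z3) (c : Om) (s : Sta) :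
    Sp u c (sh t s) ↔ Sp u (shc t c) s := by
  unfold Sp
  simp only [tri_sh, r05_Inf_sh, orb_sh, lev_sh, add_le_add_iff_right, add_lt_add_iff_right]

theorem r05_Sp_unique {u : Fin 4 → ℝ} {c : Om} {s s' : Sta} (h : Sp u c s) (h' : Sp u c s')
    {k : ℤ} (hk : orb c k s = s') : s = s' := by
  have hk' : orb c (-k) s' = s := by rw [← hk, orb_neg_orb]
  rcases lt_trichotomy k 0 with h0 | h0 | h0
  · have h1 := h'.2.2.2 (-k) (by omega)
    rw [hk'] at h1
    have h2 := h.2.2.1 k
    rw [hk] at h2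
    exact absurd h1 (not_lt.2 h2)
  · rw [h0, orb_zero] at hk
    exact hk
  · have h1 := h.2.2.2 k h0
    rw [hk] at h1
    have h2 := h'.2.2.1 (-k)
    rw [hk'] at h2
    exact absurd h1 (not_lt.2 h2)

theorem r05_mset_Sp (u : Fin 4 → ℝ) (s : Sta) : MeasurableSet {c : Om | Sp u c s} := by
  have h1 : MeasurableSet {c : Om | ∀ n : ℤ, lev u s ≤ lev u (orb c n s)} := by
    have : {c : Om | ∀ n : ℤ, lev u s ≤ lev u (orb c n s)}
        = ⋂ n : ℤ, {c : Om | orb c n s ∈ {s' | lev u s ≤ lev u s'}} := by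
      ext c; simp
    rw [this]
    exact MeasurableSet.iInter (fun n => mset_orb n s _)
  have h2 : MeasurableSet {c : Om | ∀ n : ℤ, 0 < n → lev u s < lev u (orb c n s)} := by
    have : {c : Om | ∀ n : ℤ, 0 < n → lev u s < lev u (orb c n s)}
        = ⋂ n : ℤ, {c : Om | orb c n s ∈ {s' | 0 < n → lev u s < lev u s'}} := by
      ext c; simp
    rw [this]
    exact MeasurableSet.iInter (fun n => mset_orb n s _)
  exact (mset_tri s).inter ((mset_Inf s).inter (h1.inter h2))

/-- R05: a.s. no infinite orbit has a lowest state -/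
theorem Sp_null (ν : Measure (Fin 3)) [IsProbabilityMeasure ν] (u : Fin 4 → ℝ) :
    ∀ᵐ c ∂mu ν, ∀ s, ¬ Sp u c s := by
  rw [ae_all_iff]
  intro s
  have key := mtp (mu ν) shc (fun t => mp_shc ν t)
    (fun w s => {c | Sp u c s ∧ ∃ n : ℤ, orb c n s = w})
    (by
      intro w s
      have h2 : MeasurableSet {c : Om | ∃ n : ℤ, orb c n s = w} := by
        have : {c : Om | ∃ n : ℤ, orb c n s = w}
            = ⋃ n : ℤ, {c : Om | orb c n s ∈ ({w} : Set Sta)} := by
          ext c; simp
        rw [this]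
        exact MeasurableSet.iUnion (fun n => mset_orb n s _)
      exact (r05_mset_Sp u s).inter h2)
    (by
      intro t w s
      ext c
      simp only [Set.mem_ofPred_eq, Set.mem_preimage, r05_Sp_sh, orb_sh, (r05_sh_injective t).eq_iff])
    (by
      rintro w s s' c ⟨h, n, hn⟩ ⟨h', m, hm⟩
      apply r05_Sp_unique h h' (k := -m + n)
      rw [orb_add, hn, ← hm, orb_neg_orb])
    (fun π => measure_ne_top _ _) s
  filter_upwards [key] with c hc hs
  have h1 : (Set.range (fun n : ℤ => orb c n s)).Infinite :=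
    Set.infinite_range_of_injective hs.2.1.injective
  apply h1
  apply hc.subset
  rintro w ⟨n, rfl⟩
  exact ⟨hs, n, rfl⟩

end MP514644
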