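import Pool.Agent.Lib.MP_514644_pr.R02
import Pool.Agent.Lib.MP_514644_pr.R05

open MeasureTheory

namespace MP514644

/-- R06: orbits with a finite non empty part which is not up -/
theorem no_fin_down (ν : Measure (Fin 3)) [IsProbabilityMeasure ν] (u : Fin 4 → ℝ) (y : ℝ) :
    ∀ᵐ c ∂mu ν, ∀ s, tri c s → Inf c s → ¬ Up u y s →
      ¬ {n : ℤ | ¬ Up u y (orb c n s)}.Finite := by
  filter_upwards [Sp_null ν u] with c hc s htr hinf hnu hfin
  have h0 : (0 : ℤ) ∈ {n : ℤ | ¬ Up u y (orb c n s)} := by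
    simpa [orb_zero] using hnu
  obtain ⟨m0, hm0, hmin⟩ := Set.exists_min_image _ (fun n : ℤ => lev u (orb c n s)) hfin ⟨0, h0⟩
  have hfin2 : {n : ℤ | ¬ Up u y (orb c n s) ∧
      lev u (orb c n s) = lev u (orb c m0 s)}.Finite :=
    hfin.subset (fun n hn => hn.1)
  obtain ⟨m, hm, hmax⟩ := Set.exists_max_image _ (fun n : ℤ => n) hfin2 ⟨m0, hm0, rfl⟩
  have hlt : lev u (orb c m s) < y := by
    by_contra hcon
    exact hm.1 (le_lev.1 (not_lt.1 hcon))
  apply hc (orb c m s)
  refine ⟨(tri_orb c m s).2 htr, hinf.orb m, ?_, ?_⟩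
  · intro n
    rw [← orb_add]
    by_cases hn : Up u y (orb c (n + m) s)
    · exact hlt.le.trans (le_lev.2 hn)
    · rw [hm.2]
      exact hmin (n + m) hn
  · intro n hn0
    rw [← orb_add]
    by_cases hn : Up u y (orb c (n + m) s)
    · exact lt_of_lt_of_le hlt (le_lev.2 hn)
    · refine lt_of_le_of_ne ?_ ?_
      · rw [hm.2]
        exact hmin (n + m) hn
      · intro heq
        have h2 : n + m ≤ m := hmax (n + m) ⟨hn, by rw [← heq]; exact hm.2⟩
        omega

theorem no_fin_down_fill (ν : Measure (Fin 3)) [IsProbabilityMeasure ν] (hν : ∀ i, ν {i} ≠ 0)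
    (u : Fin 4 → ℝ) (y : ℝ) :
    ∀ᵐ c ∂mu ν, ∀ s, tri (fill u y c) s → Inf (fill u y c) s → ¬ Up u y s →
      ¬ {n : ℤ | ¬ Up u y (orb (fill u y c) n s)}.Finite := by
  filter_upwards [ae_recolor ν hν (no_fin_down ν u y)] with c hc s htr hinf hnu hfin
  classical
  set F : Om := fill u y c with hF
  set Z : Set Z3 := ⋃ n ∈ {n : ℤ | ¬ Up u y (orb F n s)}, Set.range (pt (orb F n s)) with hZ
  have hZfin : Z.Finite := hfin.biUnion (fun n _ => Set.finite_range _)
  set c' : Om := fun z => if z ∈ Z ∧ ¬ y ≤ ht u z then 0 else c z with hc'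
  have hFR : FR c c' := by
    refine hZfin.subset ?_
    intro z hz
    by_contra hcon
    apply hz
    simp only [hc']
    rw [if_neg (fun h => hcon h.1)]
  have hag : ∀ (n : ℤ) (k : Fin 4), F (pt (orb F n s) k) = c' (pt (orb F n s) k) := by
    intro n k
    by_cases hy : y ≤ ht u (pt (orb F n s) k)
    · simp only [hc']
      rw [if_neg (fun h => h.2 hy), hF]
      simp only [fill]
      rw [if_pos hy]
    · have hn : ¬ Up u y (orb F n s) := fun h => hy (h k)
      have hmem : pt (orb F n s) k ∈ Z := by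
        rw [hZ]
        exact Set.mem_biUnion (show n ∈ {n : ℤ | ¬ Up u y (orb F n s)} from hn) ⟨k, rfl⟩
      simp only [hc']
      rw [if_pos ⟨hmem, hy⟩]
      have : ∀ z, ¬ y ≤ ht u z → F z = 0 := by
        intro z hz
        rw [hF]
        simp only [fill]
        rw [if_neg hz]
      exact this _ hy
  have horb : ∀ n : ℤ, orb F n s = orb c' n s := by
    intro n
    have h1 := orb_eq_of_nxt (c := c') (f := fun n => orb F n s) (fun m => by
      rw [orb_succ]
      exact nxt_congr (hag m)) n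
    simpa [orb_zero] using h1
  have htri : tri c' s := by
    have h1 := hag 0
    rw [orb_zero] at h1
    exact (tri_congr h1).1 htr
  have hinf' : Inf c' s := by
    intro n hn
    apply hinf
    rw [horb]
    exact hn
  refine hc c' hFR s htri hinf' hnu ?_
  have heq : {n : ℤ | ¬ Up u y (orb c' n s)} = {n : ℤ | ¬ Up u y (orb F n s)} := by
    ext n
    simp only [Set.mem_ofPred_eq, horb]
  rw [heq]
  exact hfin

end MP514644
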