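import Pool.Agent.Lib.MP_514644_pr.R01
import Pool.Agent.Lib.MP_514644_pr.R03
import Pool.Agent.Lib.MP_514644_pr.R04

open MeasureTheory

namespace MP514644

/-- the shift on `ℝ × Om` -/
noncomputable def r07_th (u : Fin 4 → ℝ) (t : Z3) (x : ℝ × Om) : ℝ × Om :=
  (x.1 - ht u t, shc t x.2)

/-- `w` is a state, not up, of the future of the descending ray `s` -/
def r07_A (u : Fin 4 → ℝ) (w s : Sta) : Set (ℝ × Om) :=
  {x | Rb u x.1 (fill u x.1 x.2) s ∧ ¬ Up u x.1 w ∧ ∃ n : ℕ, orb (fill u x.1 x.2) n s = w}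

theorem r07_sh_injective (t : Z3) : Function.Injective (sh t) := by
  intro a b h
  simp only [sh, Prod.mk.injEq, add_left_inj] at h
  exact Prod.ext h.1 h.2

theorem r07_mp_th (ν : Measure (Fin 3)) [IsProbabilityMeasure ν] (u : Fin 4 → ℝ) (t : Z3) :
    MeasurePreserving (r07_th u t) ((volume : Measure ℝ).prod (mu ν))
      ((volume : Measure ℝ).prod (mu ν)) := by
  have h1 : MeasurePreserving (fun y : ℝ => y - ht u t) volume volume :=
    measurePreserving_sub_right volume (ht u t)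
  exact h1.prod (mp_shc ν t)

theorem r07_mset_past (u : Fin 4 → ℝ) (n : ℤ) (s : Sta) :
    MeasurableSet {x : ℝ × Om | Up u x.1 (orb (fill u x.1 x.2) n s)} := by
  have h : {x : ℝ × Om | Up u x.1 (orb (fill u x.1 x.2) n s)}
      = ⋃ s' : Sta, ({x : ℝ × Om | orb (fill u x.1 x.2) n s ∈ ({s'} : Set Sta)}
        ∩ {x : ℝ × Om | Up u x.1 s'}) := by
    ext x
    simp only [Set.mem_ofPred_eq, Set.mem_iUnion, Set.mem_inter_iff, Set.mem_singleton_iff]
    constructor
    · intro hx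
      exact ⟨_, rfl, hx⟩
    · rintro ⟨s', hs', hx⟩
      rw [hs']
      exact hx
  rw [h]
  refine MeasurableSet.iUnion (fun s' => MeasurableSet.inter ?_ ?_)
  · exact measurable_fill u (mset_orb n s {s'})
  · exact measurable_fst (mset_Up u s')

theorem r07_mset_Rb (u : Fin 4 → ℝ) (s : Sta) :
    MeasurableSet {x : ℝ × Om | Rb u x.1 (fill u x.1 x.2) s} := by
  have h1 : MeasurableSet {x : ℝ × Om | tri (fill u x.1 x.2) s} :=
    measurable_fill u (mset_tri s)
  have h2 : MeasurableSet {x : ℝ × Om | ¬ Up u x.1 s} :=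
    (measurable_fst (mset_Up u s)).compl
  have h3 : MeasurableSet {x : ℝ × Om | ∀ n : ℤ, 0 < n → Up u x.1 (orb (fill u x.1 x.2) (-n) s)} := by
    have : {x : ℝ × Om | ∀ n : ℤ, 0 < n → Up u x.1 (orb (fill u x.1 x.2) (-n) s)}
        = ⋂ n : ℤ, {x : ℝ × Om | 0 < n → Up u x.1 (orb (fill u x.1 x.2) (-n) s)} := by
      ext x; simp only [Set.mem_ofPred_eq, Set.mem_iInter]
    rw [this]
    refine MeasurableSet.iInter (fun n => ?_)
    by_cases hn : 0 < n
    · have : {x : ℝ × Om | 0 < n → Up u x.1 (orb (fill u x.1 x.2) (-n) s)}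
          = {x : ℝ × Om | Up u x.1 (orb (fill u x.1 x.2) (-n) s)} := by
        ext x; simp only [Set.mem_ofPred_eq, hn, forall_const]
      rw [this]
      exact r07_mset_past u (-n) s
    · have : {x : ℝ × Om | 0 < n → Up u x.1 (orb (fill u x.1 x.2) (-n) s)} = Set.univ := by
        ext x; simp only [Set.mem_ofPred_eq, hn, Set.mem_univ, false_imp_iff]
      rw [this]
      exact MeasurableSet.univ
  exact h1.inter (h2.inter h3)

theorem r07_mset_A (u : Fin 4 → ℝ) (w s : Sta) : MeasurableSet (r07_A u w s) := by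
  have h2 : MeasurableSet {x : ℝ × Om | ¬ Up u x.1 w} :=
    (measurable_fst (mset_Up u w)).compl
  have h3 : MeasurableSet {x : ℝ × Om | ∃ n : ℕ, orb (fill u x.1 x.2) n s = w} := by
    have : {x : ℝ × Om | ∃ n : ℕ, orb (fill u x.1 x.2) n s = w}
        = ⋃ n : ℕ, {x : ℝ × Om | orb (fill u x.1 x.2) n s ∈ ({w} : Set Sta)} := by
      ext x; simp only [Set.mem_ofPred_eq, Set.mem_iUnion, Set.mem_singleton_iff]
    rw [this]
    exact MeasurableSet.iUnion (fun n => measurable_fill u (mset_orb n s {w}))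
  exact (r07_mset_Rb u s).inter (h2.inter h3)

theorem r07_inv (u : Fin 4 → ℝ) (t : Z3) (w s : Sta) :
    r07_A u (sh t w) (sh t s) = r07_th u t ⁻¹' r07_A u w s := by
  ext x
  simp only [r07_A, r07_th, Set.mem_ofPred_eq, Set.mem_preimage, Rb, tri_sh, Up_sh, orb_sh,
    fill_shc, (r07_sh_injective t).eq_iff]

theorem r07_Rb_aux {u : Fin 4 → ℝ} {y : ℝ} {c : Om} {s s' : Sta} (h : Rb u y c s)
    (h' : Rb u y c s') {k : ℤ} (hk : orb c k s = s') : s = s' := by
  have hk' : orb c (-k) s' = s := by rw [← hk, orb_neg_orb]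
  rcases lt_trichotomy k 0 with h0 | h0 | h0
  · exfalso
    apply h'.2.1
    have h1 := h.2.2 (-k) (by omega)
    rw [neg_neg, hk] at h1
    exact h1
  · rw [h0, orb_zero] at hk
    exact hk
  · exfalso
    apply h.2.1
    have h1 := h'.2.2 k h0
    rw [hk'] at h1
    exact h1

theorem r07_uniq (u : Fin 4 → ℝ) (w s s' : Sta) (x : ℝ × Om) (h : x ∈ r07_A u w s)
    (h' : x ∈ r07_A u w s') : s = s' := by
  obtain ⟨h1, -, n, hn⟩ := h
  obtain ⟨h1', -, m, hm⟩ := h'
  apply r07_Rb_aux h1 h1' (k := -(m : ℤ) + n)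
  rw [orb_add, hn, ← hm, orb_neg_orb]

theorem r07_fin (ν : Measure (Fin 3)) [IsProbabilityMeasure ν] (u : Fin 4 → ℝ)
    (w : Sta) :
    ((volume : Measure ℝ).prod (mu ν)) (⋃ s, r07_A u w s) ≠ ⊤ := by
  have hsub : (⋃ s, r07_A u w s) ⊆
      (Set.Icc (lev u w) (max (ht u (pt w 1)) (ht u (pt w 2)))) ×ˢ (Set.univ : Set Om) := by
    intro x hx
    obtain ⟨s, h1, h2, n, hn⟩ := Set.mem_iUnion.1 hx
    refine ⟨⟨?_, ?_⟩, Set.mem_univ _⟩
    · rw [← le_lev] at h2
      exact (not_le.1 h2).le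
    · have htri : tri (fill u x.1 x.2) w := by
        rw [← hn, tri_orb]
        exact h1.1
      by_contra hlt
      rw [not_le, max_lt_iff] at hlt
      apply htri.1
      simp only [fill]
      rw [if_neg (not_le.2 hlt.1), if_neg (not_le.2 hlt.2)]
  apply ne_top_of_le_ne_top _ (measure_mono hsub)
  rw [Measure.prod_prod, measure_univ, mul_one, Real.volume_Icc]
  exact ENNReal.ofReal_ne_top

/-- R07: descending rays of the filled colouring, whose future is infinitely often not up -/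
theorem no_inf_fwd (ν : Measure (Fin 3)) [IsProbabilityMeasure ν] (u : Fin 4 → ℝ) :
    ∀ᵐ y : ℝ, ∀ᵐ c ∂mu ν, ∀ s, Rb u y (fill u y c) s →
      {n : ℕ | ¬ Up u y (orb (fill u y c) n s)}.Finite := by
  have key : ∀ s : Sta, ∀ᵐ x ∂((volume : Measure ℝ).prod (mu ν)), {w | x ∈ r07_A u w s}.Finite :=
    fun s => mtp ((volume : Measure ℝ).prod (mu ν)) (r07_th u) (r07_mp_th ν u) (r07_A u)
      (r07_mset_A u) (r07_inv u) (r07_uniq u) (fun π => r07_fin ν u _) s
  have key2 := Measure.ae_ae_of_ae_prod (ae_all_iff.2 key)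
  filter_upwards [key2] with y hy
  filter_upwards [hy] with c hc s hs
  have hinj : Function.Injective (fun n : ℕ => orb (fill u y c) n s) := by
    intro a b hab
    exact_mod_cast hs.inf.injective hab
  refine Set.Finite.of_finite_image ((hc s).subset ?_) hinj.injOn
  rintro w ⟨n, hn, rfl⟩
  exact ⟨hs, hn, n, rfl⟩

end MP514644
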