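import Pool.Agent.Lib.MP_514644_pr.R06
import Pool.Agent.Lib.MP_514644_pr.R07

open MeasureTheory

namespace MP514644

theorem fill_of_up {u : Fin 4 → ℝ} {y : ℝ} {c : Om} {s : Sta} (h : Up u y s) (k : Fin 4) :
    c (pt s k) = fill u y c (pt s k) := by
  rw [fill, if_pos (h k)]

/-- R08: a descending ray of `c` is a descending ray of the filled colouring -/
theorem Rb_fill {u : Fin 4 → ℝ} {y : ℝ} {c : Om} {s : Sta} (h : Rb u y c s) :
    Rb u y (fill u y c) s := by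
  obtain ⟨ht, hu, hp⟩ := h
  have key : ∀ n : ℕ, orb (fill u y c) (-(n : ℤ)) s = orb c (-(n : ℤ)) s :=
    orb_neg_congr (fun n hn k => fill_of_up (hp n hn) k)
  refine ⟨?_, hu, ?_⟩
  · have h1 : orb (fill u y c) (-1) s = orb c (-1) s := by simpa using key 1
    rw [← tri_orb (fill u y c) (-1) s, h1,
      ← tri_congr (fun k => fill_of_up (hp 1 one_pos) k), tri_orb]
    exact ht
  · intro n hn
    obtain ⟨m, rfl⟩ : ∃ m : ℕ, n = m := ⟨n.toNat, by omega⟩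
    rw [key]
    exact hp _ hn

theorem claimA (ν : Measure (Fin 3)) [IsProbabilityMeasure ν] (hν : ∀ i, ν {i} ≠ 0)
    (u : Fin 4 → ℝ) : ∀ᵐ y : ℝ, ∀ᵐ c ∂mu ν, ∀ s, ¬ Rb u y c s := by
  filter_upwards [no_inf_fwd ν u] with y hy
  filter_upwards [hy, no_fin_down_fill ν hν u y] with c h1 h2 s hs
  have hf := Rb_fill hs
  refine h2 s hf.1 hf.inf hf.2.1 ?_
  refine ((h1 s hf).image (fun n : ℕ => (n : ℤ))).subset ?_
  intro n hn
  rcases lt_or_ge n 0 with h0 | h0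
  · exfalso
    apply hn
    have := hf.2.2 (-n) (by omega)
    rwa [neg_neg] at this
  · refine ⟨n.toNat, ?_, by simpa using h0⟩
    change ¬ Up u y (orb (fill u y c) (n.toNat : ℤ) s)
    rw [Int.toNat_of_nonneg h0]
    exact hn

theorem claimA' (ν : Measure (Fin 3)) [IsProbabilityMeasure ν] (hν : ∀ i, ν {i} ≠ 0)
    (u : Fin 4 → ℝ) : ∀ᵐ y : ℝ, ∀ᵐ c ∂mu ν, NoR u y c := by
  filter_upwards [claimA ν hν u] with y hy
  filter_upwards [ae_recolor ν hν hy] with c hc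
  exact fun c' hc' => hc c' hc'

theorem good_thr (ν : Measure (Fin 3)) [IsProbabilityMeasure ν] (hν : ∀ i, ν {i} ≠ 0)
    (u : Fin 4 → ℝ) (m : ℕ) : ∃ y : ℝ, y < -(m : ℝ) ∧ ∀ᵐ c ∂mu ν, NoR u y c := by
  by_contra hcon
  have h0 : volume {y : ℝ | ¬ ∀ᵐ c ∂mu ν, NoR u y c} = 0 := claimA' ν hν u
  have h1 : volume (Set.Iio (-(m : ℝ))) = 0 := by
    refine measure_mono_null ?_ h0
    intro y hy
    exact fun h2 => hcon ⟨y, hy, h2⟩
  rw [Real.volume_Iio] at h1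
  exact ENNReal.top_ne_zero h1

end MP514644
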