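import Pool.Agent.Lib.MP_514644_pr.Base

namespace MP514644

theorem co_add_g_R09 (x : Z3) (i p q : Fin 4) :
    co (x + g i) p - co (x + g i) q =
      co x p - co x q + (if p = i then 1 else 0) - (if q = i then 1 else 0) := by
  obtain ⟨x1, x2, x3⟩ := x
  fin_cases i <;> fin_cases p <;> fin_cases q <;> simp [co, g] <;> ring

theorem co_sub_g_R09 (x : Z3) (i p q : Fin 4) :
    co (x - g i) p - co (x - g i) q =
      co x p - co x q - (if p = i then 1 else 0) + (if q = i then 1 else 0) := by
  have h := co_add_g_R09 (x - g i) i p q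
  rw [sub_add_cancel] at h
  linarith

theorem co_add_nsmul_R09 (x : Z3) (k : ℕ) (i p q : Fin 4) :
    co (x + k • g i) p - co (x + k • g i) q =
      co x p - co x q + (k : ℤ) * (if p = i then 1 else 0) - (k : ℤ) * (if q = i then 1 else 0) := by
  induction k with
  | zero => simp
  | succ k ih =>
    have e : x + (k + 1) • g i = x + k • g i + g i := by rw [succ_nsmul]; abel
    rw [e, co_add_g_R09, ih]
    push_cast
    ring

theorem co_sub_nsmul_R09 (x : Z3) (k : ℕ) (i p q : Fin 4) :
    co (x - k • g i) p - co (x - k • g i) q =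
      co x p - co x q - (k : ℤ) * (if p = i then 1 else 0) + (k : ℤ) * (if q = i then 1 else 0) := by
  have h := co_add_nsmul_R09 (x - k • g i) k i p q
  rw [sub_add_cancel] at h
  linarith

theorem mv_three_R09 (s : Sta) : mv 3 s = (s.1 - g (s.2 2), s.2 * sg 3) := rfl

theorem mv_one_R09 (s : Sta) : mv 1 s = (s.1 + g (s.2 1), s.2 * sg 1) := rfl

theorem iter3_three_R09 (s : Sta) : (mv 3)^[3] s = (s.1 + g (s.2 3), s.2) := by
  have h := g_sum s.2
  obtain ⟨w, π⟩ := s
  refine Prod.ext ?_ ?_
  · change w - g (π 2) - g (π 1) - g (π 0) = w + g (π 3)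
    have h3 : g (π 3) = -(g (π 0) + g (π 1) + g (π 2)) := by
      have : g (π 3) = (g (π 0) + g (π 1) + g (π 2) + g (π 3))
          - (g (π 0) + g (π 1) + g (π 2)) := by abel
      rw [this, h, zero_sub]
    rw [h3]
    abel
  · ext i
    fin_cases i <;> simp [mv, sg]

theorem iter1_three_R09 (s : Sta) : (mv 1)^[3] s = (s.1 - g (s.2 0), s.2) := by
  have h := g_sum s.2
  obtain ⟨w, π⟩ := s
  refine Prod.ext ?_ ?_
  · change w + g (π 1) + g (π 2) + g (π 3) = w - g (π 0)
    have h3 : g (π 0) = -(g (π 1) + g (π 2) + g (π 3)) := by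
      have : g (π 0) = (g (π 0) + g (π 1) + g (π 2) + g (π 3))
          - (g (π 1) + g (π 2) + g (π 3)) := by abel
      rw [this, h, zero_sub]
    rw [h3]
    abel
  · ext i
    fin_cases i <;> simp [mv, sg]

theorem iter3_mul_R09 (s : Sta) (k : ℕ) :
    (mv 3)^[3 * k] s = (s.1 + k • g (s.2 3), s.2) := by
  induction k with
  | zero => simp
  | succ k ih =>
    have e : 3 * (k + 1) = 3 + 3 * k := by ring
    rw [e, Function.iterate_add_apply, ih, iter3_three_R09]
    refine Prod.ext ?_ rfl
    simp only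
    rw [succ_nsmul]
    abel

theorem iter1_mul_R09 (s : Sta) (k : ℕ) :
    (mv 1)^[3 * k] s = (s.1 - k • g (s.2 0), s.2) := by
  induction k with
  | zero => simp
  | succ k ih =>
    have e : 3 * (k + 1) = 3 + 3 * k := by ring
    rw [e, Function.iterate_add_apply, ih, iter1_three_R09]
    refine Prod.ext ?_ rfl
    simp only
    rw [succ_nsmul]
    abel

/-- the new cells along `mv 3` -/
theorem iter3_cases_R09 (s : Sta) (m : ℕ) : ∃ k : ℕ,
    ((mv 3)^[m] s).1 = s.1 + k • g (s.2 3) ∨
    ((mv 3)^[m] s).1 = s.1 + k • g (s.2 3) - g (s.2 2) ∨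
    ((mv 3)^[m] s).1 = s.1 + k • g (s.2 3) - g (s.2 2) - g (s.2 1) := by
  refine ⟨m / 3, ?_⟩
  have hm : m = m % 3 + 3 * (m / 3) := by omega
  have hr : m % 3 < 3 := Nat.mod_lt _ (by norm_num)
  generalize m % 3 = r at hm hr
  generalize m / 3 = k at hm
  subst hm
  rw [Function.iterate_add_apply, iter3_mul_R09]
  interval_cases r
  · left; rfl
  · right; left; rfl
  · right; right; rfl

/-- the new cells along `mv 1` -/
theorem iter1_cases_R09 (s : Sta) (m : ℕ) : ∃ k : ℕ,
    ((mv 1)^[m] s).1 = s.1 - k • g (s.2 0) ∨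
    ((mv 1)^[m] s).1 = s.1 - k • g (s.2 0) + g (s.2 1) ∨
    ((mv 1)^[m] s).1 = s.1 - k • g (s.2 0) + g (s.2 1) + g (s.2 2) := by
  refine ⟨m / 3, ?_⟩
  have hm : m = m % 3 + 3 * (m / 3) := by omega
  have hr : m % 3 < 3 := Nat.mod_lt _ (by norm_num)
  generalize m % 3 = r at hm hr
  generalize m / 3 = k at hm
  subst hm
  rw [Function.iterate_add_apply, iter1_mul_R09]
  interval_cases r
  · left; rfl
  · right; left; rfl
  · right; right; rfl

theorem exists_of_not_inD_R09 {u : Fin 4 → ℝ} {d : Z3} (h : ¬ inD u d) :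
    ∃ p n, 0 < u p ∧ u n < 0 ∧ 0 < co d p - co d n := by
  unfold inD at h
  push Not at h
  obtain ⟨p, n, h1, h2, h3⟩ := h
  exact ⟨p, n, h1, h2, by omega⟩

theorem co_eq_zero_R09 {d : Z3} (π : Equiv.Perm (Fin 4)) {m : ℤ}
    (h : ∀ i, co d (π i) = m) : d = 0 := by
  have h' : ∀ i, co d i = m := by
    intro i
    have := h (π.symm i)
    rwa [Equiv.apply_symm_apply] at this
  have h3 : (0 : ℤ) = m := h' 3
  have h0 : d.1 = m := h' 0
  have h1 : d.2.1 = m := h' 1
  have h2 : d.2.2 = m := h' 2
  refine Prod.ext ?_ (Prod.ext ?_ ?_)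
  · simp [h0, ← h3]
  · simp [h1, ← h3]
  · simp [h2, ← h3]

/-- R09: routing at the entrance of the order cone -/
theorem routing {u : Fin 4 → ℝ} (hu0 : ∀ i, u i ≠ 0) {s : Sta} {a : Z3}
    (h0 : inD u (s.1 - a)) (hne : s.1 ≠ a) (hk : ∀ k, k ≠ 0 → ¬ inD u (pt s k - a)) :
    0 < u (s.2 0) ∧ u (s.2 3) < 0 ∧
      ((∀ m : ℕ, inD u (((mv 3)^[m] s).1 - a)) ∨ ∀ m : ℕ, inD u (((mv 1)^[m] s).1 - a)) := by
  obtain ⟨w, π⟩ := s
  simp only at h0 hne ⊢
  have hd : w - a ≠ 0 := sub_ne_zero.2 hne
  -- first cell
  obtain ⟨p1, n1, hp1, hn1, hc1⟩ := exists_of_not_inD_R09 (hk 1 (by decide))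
  have e1 : pt (w, π) 1 - a = (w - a) + g (π 0) := by rw [pt_one]; abel
  rw [e1, co_add_g_R09] at hc1
  -- third cell
  obtain ⟨p3, n3, hp3, hn3, hc3⟩ := exists_of_not_inD_R09 (hk 3 (by decide))
  have e3 : pt (w, π) 3 - a = (w - a) - g (π 3) := by rw [pt_three]; abel
  rw [e3, co_sub_g_R09] at hc3
  generalize hdd : w - a = d at *
  have H := h0
  have q1 := H p1 n1 hp1 hn1
  have q3 := H p3 n3 hp3 hn3
  have hpi0 : p1 = π 0 := by
    by_contra hne'
    rw [if_neg hne'] at hc1
    split_ifs at hc1 <;> omega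
  have hn1' : n1 ≠ π 0 := by
    rintro h
    rw [hpi0, ← h] at hp1
    linarith
  have hpi3 : n3 = π 3 := by
    by_contra hne'
    rw [if_neg hne'] at hc3
    split_ifs at hc3 <;> omega
  have hp3' : p3 ≠ π 3 := by
    rintro h
    rw [hpi3, ← h] at hn3
    linarith
  rw [if_pos hpi0, if_neg hn1'] at hc1
  rw [if_pos hpi3, if_neg hp3'] at hc3
  subst hpi0
  subst hpi3
  have hm : co d (π 0) = co d (π 3) := by
    have a1 := H (π 0) (π 3) hp1 hn3
    have a2 := H p3 n1 hp3 hn1
    omega
  have hP : ∀ p, 0 < u p → co d p ≤ co d (π 0) := fun p hp => by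
    have := H p (π 3) hp hn3
    omega
  have hN : ∀ n, u n < 0 → co d (π 0) ≤ co d n := fun n hn => H (π 0) n hp1 hn
  have key : ∀ x : Z3, (∀ p n, 0 < u p → u n < 0 → co x p - co x n ≤ 0) → inD u x := by
    intro x hx i j hi hj
    have := hx i j hi hj
    omega
  refine ⟨hp1, hn3, ?_⟩
  by_cases hq : ∀ q, (q = π 1 ∨ q = π 2) → u q < 0 → co d (π 0) < co d q
  · -- `mv 3`
    left
    intro m
    have hcase : ∀ k : ℕ, ∀ p n, 0 < u p → u n < 0 →
        co d p - co d n + (k : ℤ) * (if p = π 3 then 1 else 0) -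
          (k : ℤ) * (if n = π 3 then 1 else 0) ≤ 0 := by
      intro k p n hp hn
      have h1 : p ≠ π 3 := by rintro rfl; linarith
      have h2 := H p n hp hn
      rw [if_neg h1]
      split_ifs
      · have : (0 : ℤ) ≤ k := Int.natCast_nonneg k
        linarith
      · linarith
    have hstr : ∀ k : ℕ, ∀ p n, 0 < u p → u n < 0 → (n = π 1 ∨ n = π 2) →
        co d p - co d n + (k : ℤ) * (if p = π 3 then 1 else 0) -
          (k : ℤ) * (if n = π 3 then 1 else 0) ≤ -1 := by
      intro k p n hp hn hor
      have h1 : p ≠ π 3 := by rintro rfl; linarith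
      have h2 := hq n hor hn
      have h3 := hP p hp
      rw [if_neg h1]
      split_ifs
      · have : (0 : ℤ) ≤ k := Int.natCast_nonneg k
        linarith
      · linarith
    have h12 : π 1 ≠ π 2 := fun h => by simpa using π.injective h
    obtain ⟨k, hk | hk | hk⟩ := iter3_cases_R09 (w, π) m
    · rw [hk]
      apply key
      intro p n hp hn
      have e : (w, π).1 + k • g ((w, π).2 3) - a = d + k • g (π 3) := by rw [← hdd]; simp only; abel
      rw [e, co_add_nsmul_R09]
      exact hcase k p n hp hn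
    · rw [hk]
      apply key
      intro p n hp hn
      have e : (w, π).1 + k • g ((w, π).2 3) - g ((w, π).2 2) - a = d + k • g (π 3) - g (π 2) := by
        rw [← hdd]; simp only; abel
      rw [e, co_sub_g_R09, co_add_nsmul_R09]
      by_cases hn2 : n = π 2
      · have := hstr k p n hp hn (Or.inr hn2)
        rw [if_pos hn2]
        split_ifs at this ⊢ <;> omega
      · have := hcase k p n hp hn
        rw [if_neg hn2]
        split_ifs at this ⊢ <;> omega
    · rw [hk]
      apply key
      intro p n hp hn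
      have e : (w, π).1 + k • g ((w, π).2 3) - g ((w, π).2 2) - g ((w, π).2 1) - a =
          d + k • g (π 3) - g (π 2) - g (π 1) := by
        rw [← hdd]; simp only; abel
      rw [e, co_sub_g_R09, co_sub_g_R09, co_add_nsmul_R09]
      by_cases hn2 : n = π 2
      · have := hstr k p n hp hn (Or.inr hn2)
        have hn1'' : n ≠ π 1 := fun h => h12 (h.symm.trans hn2)
        rw [if_pos hn2, if_neg hn1'']
        split_ifs at this ⊢ <;> omega
      · by_cases hn11 : n = π 1
        · have := hstr k p n hp hn (Or.inl hn11)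
          rw [if_neg hn2, if_pos hn11]
          split_ifs at this ⊢ <;> omega
        · have := hcase k p n hp hn
          rw [if_neg hn2, if_neg hn11]
          split_ifs at this ⊢ <;> omega
  · -- `mv 1`
    right
    push Not at hq
    obtain ⟨q, hqor, hqn, hqc⟩ := hq
    have hqe : co d q = co d (π 0) := le_antisymm hqc (hN q hqn)
    have hq' : ∀ r, (r = π 1 ∨ r = π 2) → 0 < u r → co d r < co d (π 0) := by
      intro r hr hr0
      refine lt_of_le_of_ne (hP r hr0) fun he => hd ?_
      have hqr : q ≠ r := by rintro rfl; linarith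
      apply co_eq_zero_R09 π (m := co d (π 0))
      intro i
      have h1 : co d (π 1) = co d (π 0) := by
        rcases hqor with h | h
        · rw [← h]; exact hqe
        · rcases hr with h' | h'
          · rw [← h']; exact he
          · exact absurd (h.trans h'.symm) hqr
      have h2 : co d (π 2) = co d (π 0) := by
        rcases hqor with h | h
        · rcases hr with h' | h'
          · exact absurd (h.trans h'.symm) hqr
          · rw [← h']; exact he
        · rw [← h]; exact hqe
      fin_cases i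
      · rfl
      · exact h1
      · exact h2
      · exact hm.symm
    intro m
    have hcase : ∀ k : ℕ, ∀ p n, 0 < u p → u n < 0 →
        co d p - co d n - (k : ℤ) * (if p = π 0 then 1 else 0) +
          (k : ℤ) * (if n = π 0 then 1 else 0) ≤ 0 := by
      intro k p n hp hn
      have h1 : n ≠ π 0 := by rintro rfl; linarith
      have h2 := H p n hp hn
      rw [if_neg h1]
      split_ifs
      · have : (0 : ℤ) ≤ k := Int.natCast_nonneg k
        linarith
      · linarith
    have hstr : ∀ k : ℕ, ∀ p n, 0 < u p → u n < 0 → (p = π 1 ∨ p = π 2) →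
        co d p - co d n - (k : ℤ) * (if p = π 0 then 1 else 0) +
          (k : ℤ) * (if n = π 0 then 1 else 0) ≤ -1 := by
      intro k p n hp hn hor
      have h1 : n ≠ π 0 := by rintro rfl; linarith
      have h2 := hq' p hor hp
      have h3 := hN n hn
      rw [if_neg h1]
      split_ifs
      · have : (0 : ℤ) ≤ k := Int.natCast_nonneg k
        linarith
      · linarith
    have h12 : π 1 ≠ π 2 := fun h => by simpa using π.injective h
    obtain ⟨k, hk | hk | hk⟩ := iter1_cases_R09 (w, π) m
    · rw [hk]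
      apply key
      intro p n hp hn
      have e : (w, π).1 - k • g ((w, π).2 0) - a = d - k • g (π 0) := by rw [← hdd]; simp only; abel
      rw [e, co_sub_nsmul_R09]
      exact hcase k p n hp hn
    · rw [hk]
      apply key
      intro p n hp hn
      have e : (w, π).1 - k • g ((w, π).2 0) + g ((w, π).2 1) - a = d - k • g (π 0) + g (π 1) := by
        rw [← hdd]; simp only; abel
      rw [e, co_add_g_R09, co_sub_nsmul_R09]
      by_cases hp2 : p = π 1
      · have := hstr k p n hp hn (Or.inl hp2)
        rw [if_pos hp2]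
        split_ifs at this ⊢ <;> omega
      · have := hcase k p n hp hn
        rw [if_neg hp2]
        split_ifs at this ⊢ <;> omega
    · rw [hk]
      apply key
      intro p n hp hn
      have e : (w, π).1 - k • g ((w, π).2 0) + g ((w, π).2 1) + g ((w, π).2 2) - a =
          d - k • g (π 0) + g (π 1) + g (π 2) := by
        rw [← hdd]; simp only; abel
      rw [e, co_add_g_R09, co_add_g_R09, co_sub_nsmul_R09]
      by_cases hp2 : p = π 2
      · have := hstr k p n hp hn (Or.inr hp2)
        have hp1'' : p ≠ π 1 := fun h => h12 (h.symm.trans hp2)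
        rw [if_pos hp2, if_neg hp1'']
        split_ifs at this ⊢ <;> omega
      · by_cases hp11 : p = π 1
        · have := hstr k p n hp hn (Or.inl hp11)
          rw [if_neg hp2, if_pos hp11]
          split_ifs at this ⊢ <;> omega
        · have := hcase k p n hp hn
          rw [if_neg hp2, if_neg hp11]
          split_ifs at this ⊢ <;> omega

end MP514644
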