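import Pool.Agent.Lib.MP_514644_pr.Base

namespace MP514644

theorem g3_eq (π : Equiv.Perm (Fin 4)) : g (π 3) = -(g (π 0) + g (π 1) + g (π 2)) := by
  have h := g_sum π
  have : g (π 3) = (g (π 0) + g (π 1) + g (π 2) + g (π 3)) - (g (π 0) + g (π 1) + g (π 2)) := by
    abel
  rw [this, h, zero_sub]

/-- R10: iterates of `mv 3` and `mv 1` -/
theorem iter3_three (s : Sta) : (mv 3)^[3] s = (s.1 + g (s.2 3), s.2) := by
  obtain ⟨w, π⟩ := s
  refine Prod.ext ?_ ?_
  · simp [mv, sg, g3_eq]; abel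
  · ext i; fin_cases i <;> simp [mv, sg]

theorem iter1_three (s : Sta) : (mv 1)^[3] s = (s.1 - g (s.2 0), s.2) := by
  obtain ⟨w, π⟩ := s
  refine Prod.ext ?_ ?_
  · simp [mv, sg, g3_eq]; abel
  · ext i; fin_cases i <;> simp [mv, sg]

theorem iter3_mul (s : Sta) (m : ℕ) : (mv 3)^[3 * m] s = (s.1 + m • g (s.2 3), s.2) := by
  induction m with
  | zero => simp
  | succ m ih =>
    rw [Nat.mul_succ, Nat.add_comm, Function.iterate_add_apply, ih, iter3_three]
    refine Prod.ext ?_ rfl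
    change s.1 + m • g (s.2 3) + g (s.2 3) = s.1 + (m + 1) • g (s.2 3)
    rw [succ_nsmul]; abel

theorem iter1_mul (s : Sta) (m : ℕ) : (mv 1)^[3 * m] s = (s.1 - m • g (s.2 0), s.2) := by
  induction m with
  | zero => simp
  | succ m ih =>
    rw [Nat.mul_succ, Nat.add_comm, Function.iterate_add_apply, ih, iter1_three]
    refine Prod.ext ?_ rfl
    change s.1 - m • g (s.2 0) - g (s.2 0) = s.1 - (m + 1) • g (s.2 0)
    rw [succ_nsmul]; abel

theorem ht_nsmul (u : Fin 4 → ℝ) (m : ℕ) (z : Z3) : ht u (m • z) = m * ht u z := by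
  induction m with
  | zero => simp [ht_zero]
  | succ m ih => rw [succ_nsmul, ht_add, ih]; push_cast; ring

theorem iter3_down {u : Fin 4 → ℝ} (hu : ∑ i, u i = 0) (y : ℝ) {s : Sta} (h : u (s.2 3) < 0) :
    ∃ m : ℕ, ¬ Up u y ((mv 3)^[m] s) := by
  obtain ⟨m, hm⟩ := exists_nat_gt ((ht u s.1 - y) / (-u (s.2 3)))
  refine ⟨3 * m, fun hup => ?_⟩
  have h0 := hup 0
  rw [iter3_mul, pt_zero] at h0
  change y ≤ ht u (s.1 + m • g (s.2 3)) at h0
  rw [ht_add, ht_nsmul, ht_g hu] at h0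
  rw [div_lt_iff₀ (by linarith)] at hm
  linarith

theorem iter1_down {u : Fin 4 → ℝ} (hu : ∑ i, u i = 0) (y : ℝ) {s : Sta} (h : 0 < u (s.2 0)) :
    ∃ m : ℕ, ¬ Up u y ((mv 1)^[m] s) := by
  obtain ⟨m, hm⟩ := exists_nat_gt ((ht u s.1 - y) / (u (s.2 0)))
  refine ⟨3 * m, fun hup => ?_⟩
  have h0 := hup 0
  rw [iter1_mul, pt_zero] at h0
  change y ≤ ht u (s.1 - m • g (s.2 0)) at h0
  rw [ht_sub, ht_nsmul, ht_g hu] at h0
  rw [div_lt_iff₀ h] at hm
  linarith

/-- the functional `4 co_i - Σ co` -/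
def fn (i : Fin 4) (z : Z3) : ℤ := 4 * co z i - (z.1 + z.2.1 + z.2.2)

theorem fn_add (i : Fin 4) (a b : Z3) : fn i (a + b) = fn i a + fn i b := by
  fin_cases i <;> simp [fn, co] <;> ring

theorem fn_sub (i : Fin 4) (a b : Z3) : fn i (a - b) = fn i a - fn i b := by
  fin_cases i <;> simp [fn, co] <;> ring

theorem fn_g {i j : Fin 4} (h : i ≠ j) : fn i (g j) = -1 := by
  revert i j; decide

theorem iter3_fn (s : Sta) (m : ℕ) :
    fn (s.2 3) ((mv 3)^[m] s).1 = fn (s.2 3) s.1 + m ∧ ((mv 3)^[m] s).2 3 = s.2 3 := by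
  induction m with
  | zero => simp
  | succ m ih =>
    obtain ⟨h1, h2⟩ := ih
    rw [Function.iterate_succ_apply']
    generalize (mv 3)^[m] s = t at h1 h2
    constructor
    · change fn (s.2 3) (t.1 - g (t.2 2)) = _
      rw [fn_sub, h1, fn_g]
      · push_cast; ring
      · rw [← h2]
        exact fun h => absurd (t.2.injective h) (by decide)
    · rw [← h2]
      simp [mv, sg]

theorem iter1_fn (s : Sta) (m : ℕ) :
    fn (s.2 0) ((mv 1)^[m] s).1 = fn (s.2 0) s.1 - m ∧ ((mv 1)^[m] s).2 0 = s.2 0 := by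
  induction m with
  | zero => simp
  | succ m ih =>
    obtain ⟨h1, h2⟩ := ih
    rw [Function.iterate_succ_apply']
    generalize (mv 1)^[m] s = t at h1 h2
    constructor
    · change fn (s.2 0) (t.1 + g (t.2 1)) = _
      rw [fn_add, h1, fn_g]
      · push_cast; ring
      · rw [← h2]
        exact fun h => absurd (t.2.injective h) (by decide)
    · rw [← h2]
      simp [mv, sg]

theorem iter3_inj (s : Sta) : Function.Injective (fun m : ℕ => ((mv 3)^[m] s).1) := by
  intro a b h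
  have ha := (iter3_fn s a).1
  have hb := (iter3_fn s b).1
  have : ((mv 3)^[a] s).1 = ((mv 3)^[b] s).1 := h
  rw [this, hb] at ha
  omega

theorem iter1_inj (s : Sta) : Function.Injective (fun m : ℕ => ((mv 1)^[m] s).1) := by
  intro a b h
  have ha := (iter1_fn s a).1
  have hb := (iter1_fn s b).1
  have : ((mv 1)^[a] s).1 = ((mv 1)^[b] s).1 := h
  rw [this, hb] at ha
  omega

end MP514644
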