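import Pool.Agent.Lib.MP_514644_pr.Base

namespace MP514644

/-- the entry cells of `(mv j)^[m] s` are entry cells of `s` or earlier new cells -/
theorem steer_cells (j : Fin 4) (s : Sta) (m : ℕ) : ∀ k : Fin 4, k ≠ 0 →
    (∃ k', k' ≠ 0 ∧ pt ((mv j)^[m] s) k = pt s k') ∨
      ∃ m', m' < m ∧ pt ((mv j)^[m] s) k = ((mv j)^[m'] s).1 := by
  induction m with
  | zero => exact fun k hk => Or.inl ⟨k, hk, rfl⟩
  | succ m ih =>
    intro k hk
    rw [Function.iterate_succ_apply', pt_mv j k hk]
    by_cases h0 : k + j = 0
    · right
      exact ⟨m, Nat.lt_succ_self m, by rw [h0, pt_zero]⟩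
    · rcases ih (k + j) h0 with ⟨k', hk', h⟩ | ⟨m', hm', h⟩
      · exact Or.inl ⟨k', hk', h⟩
      · exact Or.inr ⟨m', hm'.trans (Nat.lt_succ_self m), h⟩

/-- R11: steering.  If the new cells of `s, mv j s, mv j (mv j s), ...` are distinct and all in
`C`, and the entry face of `s` does not meet `C`, then a finite recolouring inside `C` makes the
tricolor line follow these states up to time `M`. -/
theorem steer {j : Fin 4} (hj : j = 1 ∨ j = 3) {c : Om} {s : Sta} (ht : tri c s) {C : Set Z3}
    (hin : ∀ m : ℕ, ((mv j)^[m] s).1 ∈ C)
    (hinj : Function.Injective (fun m : ℕ => ((mv j)^[m] s).1))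
    (hout : ∀ k, k ≠ 0 → pt s k ∉ C) (M : ℕ) :
    ∃ c', FR c c' ∧ (∀ z, z ∉ C → c' z = c z) ∧ ∀ m : ℕ, m ≤ M → orb c' m s = (mv j)^[m] s := by
  classical
  have hj0 : j ≠ 0 := by rcases hj with h | h <;> rw [h] <;> decide
  -- the cells which are not new
  have hne : ∀ m M' : ℕ, m ≤ M' → ∀ k, k ≠ 0 → pt ((mv j)^[m] s) k ≠ ((mv j)^[M'] s).1 := by
    intro m M' hm k hk he
    rcases steer_cells j s m k hk with ⟨k', hk', h⟩ | ⟨m', hm', h⟩
    · apply hout k' hk'
      rw [← h, he]
      exact hin M'
    · rw [h] at he
      have := hinj he
      omega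
  have key : ∃ c', FR c c' ∧ (∀ z, z ∉ C → c' z = c z) ∧ tri c' s ∧
      ∀ m : ℕ, m ≤ M → orb c' m s = (mv j)^[m] s := by
    induction M with
    | zero =>
      refine ⟨c, ?_, fun z _ => rfl, ht, ?_⟩
      · simp [FR]
      · intro m hm
        have : m = 0 := by omega
        subst this
        simp [orb_zero]
    | succ M ih =>
      obtain ⟨c', hfr, hC, htri, horb⟩ := ih
      refine ⟨Function.update c' ((mv j)^[M] s).1 (c' (pt ((mv j)^[M] s) j)), ?_, ?_, ?_, ?_⟩
      · refine (hfr.union (Set.finite_singleton ((mv j)^[M] s).1)).subset ?_
        intro z hz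
        by_cases h : z = ((mv j)^[M] s).1
        · exact Or.inr h
        · left
          simpa [Function.update_of_ne h] using hz
      · intro z hz
        have h : z ≠ ((mv j)^[M] s).1 := fun h => hz (h ▸ hin M)
        rw [Function.update_of_ne h, hC z hz]
      · have h : ∀ k, k ≠ 0 → Function.update c' ((mv j)^[M] s).1 (c' (pt ((mv j)^[M] s) j))
            (pt s k) = c' (pt s k) := fun k hk =>
          Function.update_of_ne (hne 0 M (Nat.zero_le _) k hk) _ _
        unfold tri
        rw [h 1 (by decide), h 2 (by decide), h 3 (by decide)]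
        exact htri
      · intro m hm
        induction m with
        | zero => simp [orb_zero]
        | succ m ihm =>
          have hm' : m ≤ M := by omega
          rw [Nat.cast_succ, orb_succ, ihm (by omega), Function.iterate_succ_apply']
          rcases hm'.lt_or_eq with hlt | heq
          · have h1 : nxt c' ((mv j)^[m] s) = mv j ((mv j)^[m] s) := by
              rw [← horb m hm', ← orb_succ]
              have := horb (m + 1) hlt
              rw [Nat.cast_succ] at this
              rw [this, horb m hm', Function.iterate_succ_apply']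
            rw [← h1]
            apply nxt_congr
            intro k
            apply Function.update_of_ne
            by_cases hk : k = 0
            · subst hk
              rw [pt_zero]
              intro he
              have := hinj he
              omega
            · exact hne m M hm' k hk
          · subst heq
            have h : ∀ k, k ≠ 0 → Function.update c' ((mv j)^[m] s).1
                (c' (pt ((mv j)^[m] s) j)) (pt ((mv j)^[m] s) k) = c' (pt ((mv j)^[m] s) k) :=
              fun k hk => Function.update_of_ne (hne m m le_rfl k hk) _ _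
            have ht' : tri c' ((mv j)^[m] s) := by
              rw [← horb m le_rfl, tri_orb]
              exact htri
            apply nxt_eq_mv _ hj0
            · rw [h j hj0, pt_zero, Function.update_self]
            · unfold tri
              rw [h 1 (by decide), h 2 (by decide), h 3 (by decide)]
              exact ht'
  obtain ⟨c', h1, h2, -, h3⟩ := key
  exact ⟨c', h1, h2, h3⟩

end MP514644
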