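import Pool.Agent.Lib.MP_514644_pr.Base

namespace MP514644

theorem co_neg_g_le (p i j : Fin 4) (h : j ≠ p) : co (-g p) i ≤ co (-g p) j := by
  revert p i j; decide

theorem inD_neg_g {u : Fin 4 → ℝ} {p : Fin 4} (hp : 0 < u p) : inD u (-g p) := by
  intro i j _ hj
  apply co_neg_g_le
  rintro rfl
  exact absurd hp (not_lt.2 hj.le)

theorem ht_co {u : Fin 4 → ℝ} (hu : ∑ i, u i = 0) (d : Z3) (M : ℤ) :
    ht u d = ∑ i, u i * ((co d i : ℝ) - M) := by
  have h : ∑ i, u i * ((co d i : ℝ) - M) = ∑ i, u i * (co d i : ℝ) - (∑ i, u i) * M := by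
    rw [Finset.sum_mul, ← Finset.sum_sub_distrib]
    exact Finset.sum_congr rfl (fun i _ => by ring)
  rw [h, hu, Fin.sum_univ_four]
  simp [ht, co]
  ring

/-- R12: the part of the order cone above a given height is finite -/
theorem cone_finite {u : Fin 4 → ℝ} (hu : ∑ i, u i = 0) (hu0 : ∀ i, u i ≠ 0) (a : Z3) (y : ℝ) :
    {x : Z3 | inD u (x - a) ∧ y ≤ ht u x}.Finite := by
  classical
  have hN : ∃ j, u j < 0 := by
    by_contra hcon
    push Not at hcon
    have hpos : ∀ i, 0 < u i := fun i => lt_of_le_of_ne (hcon i) (Ne.symm (hu0 i))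
    have : 0 < ∑ i, u i := Finset.sum_pos (fun i _ => hpos i) ⟨0, Finset.mem_univ 0⟩
    linarith
  set K : ℝ := |ht u a - y| with hK
  obtain ⟨B, hB⟩ := exists_nat_gt (∑ i, K / |u i|)
  have hKu : ∀ i, K / |u i| ≤ B := by
    intro i
    refine le_trans ?_ hB.le
    exact Finset.single_le_sum (f := fun i => K / |u i|)
      (fun j _ => div_nonneg (abs_nonneg _) (abs_nonneg _)) (Finset.mem_univ i)
  have key : ∀ d : Z3, inD u d → y - ht u a ≤ ht u d → ∀ i, |co d i| ≤ 2 * (B : ℤ) := by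
    intro d hd hh
    obtain ⟨j0, hj0, hmin⟩ := Finset.exists_min_image (Finset.univ.filter (fun j => u j < 0))
      (co d) (by
        obtain ⟨j, hj⟩ := hN
        exact ⟨j, by simpa using hj⟩)
    rw [Finset.mem_filter] at hj0
    set M := co d j0 with hM
    have hterm : ∀ i, u i * ((co d i : ℝ) - M) ≤ 0 := by
      intro i
      rcases lt_or_gt_of_ne (hu0 i) with h | h
      · have h1 : M ≤ co d i := hmin i (by simpa using h)
        have h2 : (M : ℝ) ≤ (co d i : ℝ) := by exact_mod_cast h1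
        exact mul_nonpos_of_nonpos_of_nonneg h.le (by linarith)
      · have h1 : co d i ≤ M := hd i j0 h hj0.2
        have h2 : (co d i : ℝ) ≤ (M : ℝ) := by exact_mod_cast h1
        exact mul_nonpos_of_nonneg_of_nonpos h.le (by linarith)
    have hsum := ht_co hu d M
    have hge : ∀ i, -K ≤ u i * ((co d i : ℝ) - M) := by
      intro i
      have h1 : ∑ i, u i * ((co d i : ℝ) - M) ≤ u i * ((co d i : ℝ) - M) := by
        rw [← Finset.add_sum_erase _ _ (Finset.mem_univ i)]
        have : ∑ x ∈ Finset.univ.erase i, u x * ((co d x : ℝ) - M) ≤ 0 :=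
          Finset.sum_nonpos (fun x _ => hterm x)
        linarith
      have h2 : -K ≤ y - ht u a := by
        have := le_abs_self (ht u a - y)
        linarith
      linarith
    have hbd : ∀ i, |co d i - M| ≤ (B : ℤ) := by
      intro i
      have h1 : |u i| * |(co d i : ℝ) - M| ≤ K := by
        rw [← abs_mul, abs_of_nonpos (hterm i)]
        have := hge i
        linarith
      have h2 : |(co d i : ℝ) - M| ≤ K / |u i| := by
        rw [le_div_iff₀ (abs_pos.2 (hu0 i))]
        linarith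
      have h3 : |(co d i : ℝ) - M| ≤ (B : ℝ) := h2.trans (hKu i)
      exact_mod_cast h3
    intro i
    have h3 := hbd 3
    have hi := hbd i
    have hc3 : co d 3 = 0 := rfl
    rw [hc3] at h3
    rw [abs_le] at h3 hi ⊢
    constructor <;> linarith [h3.1, h3.2, hi.1, hi.2]
  refine (Set.finite_Icc (a - (2 * (B : ℤ), 2 * (B : ℤ), 2 * (B : ℤ)))
    (a + (2 * (B : ℤ), 2 * (B : ℤ), 2 * (B : ℤ)))).subset ?_
  rintro x ⟨hx, hy⟩
  have h := key (x - a) hx (by rw [ht_sub]; linarith)
  have h0 := abs_le.1 (h 0)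
  have h1 := abs_le.1 (h 1)
  have h2 := abs_le.1 (h 2)
  simp only [co, Matrix.cons_val_zero, Matrix.cons_val_one, Matrix.cons_val, Prod.fst_sub,
    Prod.snd_sub] at h0 h1 h2
  obtain ⟨x0, x1, x2⟩ := x
  obtain ⟨a0, a1, a2⟩ := a
  simp only [Set.mem_Icc, Prod.le_def, Prod.mk_sub_mk, Prod.mk_add_mk] at *
  omega

theorem touch_finite {L : Set Z3} (hL : L.Finite) : {s : Sta | ∃ k, pt s k ∈ L}.Finite := by
  have h := (hL.prod (Set.finite_univ (α := Equiv.Perm (Fin 4) × Fin 4))).image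
    (fun x : Z3 × (Equiv.Perm (Fin 4) × Fin 4) => ((x.1 - pt (0, x.2.1) x.2.2, x.2.1) : Sta))
  refine h.subset ?_
  rintro ⟨w, π⟩ ⟨k, hk⟩
  refine ⟨(pt (w, π) k, (π, k)), ⟨hk, trivial⟩, ?_⟩
  have h1 := pt_sh w (0, π) k
  have h2 : sh w ((0 : Z3), π) = (w, π) := by simp [sh]
  rw [h2] at h1
  refine Prod.ext ?_ rfl
  change pt (w, π) k - pt (0, π) k = w
  rw [h1]
  abel

end MP514644
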