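import Pool.Agent.Lib.MP_514644_pr.R09
import Pool.Agent.Lib.MP_514644_pr.R10
import Pool.Agent.Lib.MP_514644_pr.R11
import Pool.Agent.Lib.MP_514644_pr.R12

namespace MP514644

/-- a recoloured route out of the cone gives a descending ray -/
theorem exit_aux_R13 {u : Fin 4 → ℝ} {y : ℝ} {c : Om} {s : Sta} (hno : NoR u y c)
    (ht : tri c s) (hup : ∀ n : ℤ, n < 0 → Up u y (orb c n s)) {C : Set Z3}
    (hpast : ∀ n : ℤ, n < 0 → ∀ k, pt (orb c n s) k ∉ C)
    (hout : ∀ k, k ≠ 0 → pt s k ∉ C) {j : Fin 4} (hj : j = 1 ∨ j = 3)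
    (hin : ∀ m : ℕ, ((mv j)^[m] s).1 ∈ C)
    (hinj : Function.Injective (fun m : ℕ => ((mv j)^[m] s).1))
    (hdown : ∃ m : ℕ, ¬ Up u y ((mv j)^[m] s)) : False := by
  classical
  obtain ⟨c', hFR, hC, horb⟩ := steer hj ht hin hinj hout (Nat.find hdown)
  have hM := Nat.find_spec hdown
  have hlt : ∀ m : ℕ, m < Nat.find hdown → Up u y ((mv j)^[m] s) := fun m hm => by
    by_contra h
    exact Nat.find_min hdown hm h
  generalize Nat.find hdown = M at *
  have ht' : tri c' s := by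
    unfold tri
    rw [hC _ (hout 1 (by decide)), hC _ (hout 2 (by decide)), hC _ (hout 3 (by decide))]
    exact ht
  refine hno c' hFR (orb c' M s) ⟨(tri_orb c' M s).2 ht', ?_, ?_⟩
  · rw [horb M le_rfl]
    exact hM
  · intro n hn
    rw [← orb_add]
    rcases le_or_gt n M with h | h
    · obtain ⟨k, hk⟩ : ∃ k : ℕ, n = k := ⟨n.toNat, (Int.toNat_of_nonneg hn.le).symm⟩
      subst hk
      have hkM : k ≤ M := by exact_mod_cast h
      have e : -(k : ℤ) + (M : ℤ) = ((M - k : ℕ) : ℤ) := by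
        rw [Nat.cast_sub hkM]
        ring
      rw [e, horb (M - k) (Nat.sub_le _ _)]
      have hk0 : 0 < k := by exact_mod_cast hn
      exact hlt _ (by omega)
    · obtain ⟨k, hk⟩ : ∃ k : ℕ, n - M = k := ⟨(n - M).toNat, (Int.toNat_of_nonneg (by omega)).symm⟩
      have e : -n + (M : ℤ) = -(k : ℤ) := by omega
      rw [e, orb_neg_congr (c := c) (c' := c') (s := s) ?_ k]
      · exact hup _ (by omega)
      · intro n' hn' k'
        exact (hC _ (hpast _ (by omega) k')).symm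

/-- R13: the exit lemma -/
theorem exit_lemma {u : Fin 4 → ℝ} (hu : ∑ i, u i = 0) (hu0 : ∀ i, u i ≠ 0) {y : ℝ} {c : Om}
    {s : Sta} (hno : NoR u y c) (ht : tri c s) (hi : Inf c s)
    (hup : ∀ n : ℤ, Up u y (orb c n s)) {z : Z3} (hz : Tch c s z) {p : Fin 4} (hp : 0 < u p) :
    Tch c s (z + g p) := by
  classical
  by_contra hcon
  set a : Z3 := z + g p with ha
  set C : Set Z3 := {x | inD u (x - a)} with hCdef
  set I : Set ℤ := {n | ∃ k, pt (orb c n s) k ∈ C} with hIdef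
  have hne : I.Nonempty := by
    obtain ⟨n, k, hnk⟩ := hz
    refine ⟨n, k, ?_⟩
    change inD u (pt (orb c n s) k - a)
    rw [hnk, ha]
    have e : z - (z + g p) = -g p := by abel
    rw [e]
    exact inD_neg_g hp
  have hfin : I.Finite := by
    have hL := touch_finite (cone_finite hu hu0 a y)
    have hpre : ((fun n : ℤ => orb c n s) ⁻¹' {s : Sta | ∃ k, pt s k ∈
        {x : Z3 | inD u (x - a) ∧ y ≤ MP514644.ht u x}}).Finite :=
      hL.preimage (hi.injective.injOn)
    refine hpre.subset ?_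
    rintro n ⟨k, hk⟩
    exact ⟨k, hk, hup n k⟩
  obtain ⟨n0, hn0, hmin⟩ := Set.exists_min_image I id hfin hne
  have hpast' : ∀ n : ℤ, n < n0 → ∀ k, pt (orb c n s) k ∉ C := by
    intro n hn k hk
    have := hmin n ⟨k, hk⟩
    simp only [id] at this
    omega
  set s0 := orb c n0 s with hs0
  have ht0 : tri c s0 := (tri_orb c n0 s).2 ht
  have hout : ∀ k, k ≠ 0 → pt s0 k ∉ C := by
    intro k hk
    have e : s0 = nxt c (orb c (n0 - 1) s) := by
      rw [← orb_succ, hs0]
      congr 1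
      ring
    obtain ⟨j, -, -, hj⟩ := nxt_spec ((tri_orb c (n0 - 1) s).2 ht)
    rw [e, hj, pt_mv j k hk]
    exact hpast' _ (by omega) _
  have hin0 : s0.1 ∈ C := by
    obtain ⟨k, hk⟩ := hn0
    by_cases hk0 : k = 0
    · subst hk0
      exact hk
    · exact absurd hk (hout k hk0)
  have hnea : s0.1 ≠ a := fun h => hcon ⟨n0, 0, h⟩
  have horb0 : ∀ n : ℤ, orb c n s0 = orb c (n + n0) s := fun n => by rw [orb_add]
  have hup0 : ∀ n : ℤ, n < 0 → Up u y (orb c n s0) := fun n _ => by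
    rw [horb0]
    exact hup _
  have hpast0 : ∀ n : ℤ, n < 0 → ∀ k, pt (orb c n s0) k ∉ C := fun n hn k => by
    rw [horb0]
    exact hpast' _ (by omega) k
  obtain ⟨h1, h2, h3 | h3⟩ := routing hu0 (s := s0) (a := a) hin0 hnea hout
  · exact exit_aux_R13 hno ht0 hup0 hpast0 hout (Or.inr rfl) h3 (iter3_inj s0)
      (iter3_down hu y h2)
  · exact exit_aux_R13 hno ht0 hup0 hpast0 hout (Or.inl rfl) h3 (iter1_inj s0)
      (iter1_down hu y h1)

end MP514644
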