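import Pool.Agent.Lib.MP_514644_pr.R01
import Pool.Agent.Lib.MP_514644_pr.R03
import Pool.Agent.Lib.MP_514644_pr.R08
import Pool.Agent.Lib.MP_514644_pr.R13

open MeasureTheory

namespace MP514644

/-- the whole orbit is above r -/
def R14_Fl (u : Fin 4 → ℝ) (c : Om) (s : Sta) (r : ℝ) : Prop := ∀ n : ℤ, Up u r (orb c n s)

/-- colourings with an infinite floored line touching z whose floor is between k-1 and k steps below z -/
def R14_E (u : Fin 4 → ℝ) (p : Fin 4) (k : ℕ) (z : Z3) : Set Om :=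
  {c | ∃ s, (∃ j, pt s j = z) ∧ tri c s ∧ Inf c s ∧ R14_Fl u c s (ht u z - k * u p) ∧
    ¬ R14_Fl u c s (ht u z - k * u p + u p)}

theorem R14_Fl.anti {u : Fin 4 → ℝ} {c : Om} {s : Sta} {r r' : ℝ} (h : r' ≤ r) (hs : R14_Fl u c s r) :
    R14_Fl u c s r' := fun n => (hs n).anti h

theorem R14_sh_inj (t : Z3) : Function.Injective (sh t) := by
  intro a b h
  have h1 := congrArg Prod.fst h
  have h2 := congrArg Prod.snd h
  simp only [sh] at h1 h2
  exact Prod.ext (add_right_cancel h1) h2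

theorem R14_Inf_sh (t : Z3) (c : Om) (s : Sta) : Inf c (sh t s) ↔ Inf (shc t c) s := by
  unfold Inf
  refine forall_congr' fun n => ?_
  rw [orb_sh]
  exact ⟨fun h h' => h (by rw [h']), fun h h' => h (R14_sh_inj t h')⟩

theorem R14_Fl_sh (u : Fin 4 → ℝ) (t : Z3) (c : Om) (s : Sta) (r : ℝ) :
    R14_Fl u c (sh t s) r ↔ R14_Fl u (shc t c) s (r - ht u t) := by
  unfold R14_Fl
  refine forall_congr' fun n => ?_
  rw [orb_sh, Up_sh]

theorem R14_E_shift (u : Fin 4 → ℝ) (p : Fin 4) (k : ℕ) (z : Z3) :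
    R14_E u p k z = shc z ⁻¹' (R14_E u p k 0) := by
  have key : ∀ (c : Om) (s : Sta), ((∃ j, pt (sh z s) j = z) ∧ tri c (sh z s) ∧ Inf c (sh z s) ∧
      R14_Fl u c (sh z s) (ht u z - k * u p) ∧ ¬ R14_Fl u c (sh z s) (ht u z - k * u p + u p)) ↔
      ((∃ j, pt s j = 0) ∧ tri (shc z c) s ∧ Inf (shc z c) s ∧
      R14_Fl u (shc z c) s (ht u 0 - k * u p) ∧ ¬ R14_Fl u (shc z c) s (ht u 0 - k * u p + u p)) := by
    intro c s
    rw [tri_sh, R14_Inf_sh, R14_Fl_sh, R14_Fl_sh]
    have e1 : ht u z - k * u p - ht u z = ht u 0 - k * u p := by rw [ht_zero]; ring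
    have e2 : ht u z - k * u p + u p - ht u z = ht u 0 - k * u p + u p := by rw [ht_zero]; ring
    rw [e1, e2]
    have e3 : (∃ j, pt (sh z s) j = z) ↔ ∃ j, pt s j = 0 := by
      refine exists_congr fun j => ?_
      rw [pt_sh]
      constructor
      · intro h
        exact add_eq_right.1 h
      · intro h
        rw [h, zero_add]
    rw [e3]
  ext c
  constructor
  · rintro ⟨s, hs⟩
    have e : s = sh z (sh (-z) s) := by
      refine Prod.ext ?_ rfl
      simp [sh]
    rw [e] at hs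
    exact ⟨sh (-z) s, (key c _).1 hs⟩
  · rintro ⟨s, hs⟩
    exact ⟨sh z s, (key c s).2 hs⟩

theorem R14_E_meas (u : Fin 4 → ℝ) (p : Fin 4) (k : ℕ) (z : Z3) : MeasurableSet (R14_E u p k z) := by
  have hFl : ∀ (s : Sta) (r : ℝ), MeasurableSet {c : Om | R14_Fl u c s r} := by
    intro s r
    have : {c : Om | R14_Fl u c s r} = ⋂ n : ℤ, {c : Om | orb c n s ∈ {s' | Up u r s'}} := by
      ext c
      simp [R14_Fl]
    rw [this]
    exact MeasurableSet.iInter fun n => mset_orb n s _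
  have : R14_E u p k z = ⋃ s : Sta, ⋃ _ : ∃ j, pt s j = z, {c : Om | tri c s} ∩ ({c : Om | Inf c s} ∩
      ({c : Om | R14_Fl u c s (ht u z - k * u p)} ∩ {c : Om | R14_Fl u c s (ht u z - k * u p + u p)}ᶜ)) := by
    ext c
    simp only [R14_E, Set.mem_ofPred_eq, Set.mem_iUnion, Set.mem_inter_iff, Set.mem_compl_iff, exists_prop]
  rw [this]
  refine MeasurableSet.iUnion fun s => MeasurableSet.iUnion fun _ => ?_
  exact (mset_tri s).inter ((mset_Inf s).inter ((hFl s _).inter (hFl s _).compl))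

theorem R14_E_step {u : Fin 4 → ℝ} (hu : ∑ i, u i = 0) (hu0 : ∀ i, u i ≠ 0) {p : Fin 4} (hp : 0 < u p)
    {k : ℕ} {z : Z3} {y : ℝ} (hy : y ≤ ht u z - k * u p) {c : Om} (hno : NoR u y c)
    (hc : c ∈ R14_E u p k z) : c ∈ R14_E u p (k + 1) (z + g p) := by
  obtain ⟨s, ⟨j, hj⟩, htri, hinf, hF, hnF⟩ := hc
  have h1 : Tch c s z := ⟨0, j, by rw [orb_zero]; exact hj⟩
  obtain ⟨n, i, hi⟩ := exit_lemma hu hu0 hno htri hinf (fun n => (hF n).anti hy) h1 hp
  have e1 : ht u (z + g p) - ((k + 1 : ℕ) : ℝ) * u p = ht u z - k * u p := by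
    rw [ht_add, ht_g hu]; push_cast; ring
  have hFl : ∀ r, R14_Fl u c (orb c n s) r ↔ R14_Fl u c s r := by
    intro r
    constructor
    · intro h m
      have := h (m - n)
      rw [← orb_add, sub_add_cancel] at this
      exact this
    · intro h m
      rw [← orb_add]
      exact h _
  refine ⟨orb c n s, ⟨i, hi⟩, (tri_orb c n s).2 htri, hinf.orb n, ?_, ?_⟩
  · rw [e1, hFl]; exact hF
  · rw [e1, hFl]; exact hnF

theorem R14_fin_touch : {s : Sta | ∃ j, pt s j = 0}.Finite := by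
  have : {s : Sta | ∃ j, pt s j = 0} ⊆
      (Finset.univ : Finset (Fin 4 × Equiv.Perm (Fin 4))).image
        (fun x => ((-(pt ((0 : Z3), x.2) x.1), x.2) : Sta)) := by
    rintro s ⟨j, hj⟩
    rw [Finset.mem_coe, Finset.mem_image]
    refine ⟨(j, s.2), Finset.mem_univ _, ?_⟩
    have h1 : s = sh s.1 ((0 : Z3), s.2) := by
      refine Prod.ext ?_ rfl
      simp [sh]
    rw [h1, pt_sh] at hj
    refine Prod.ext ?_ rfl
    show -(pt ((0 : Z3), s.2) j) = s.1
    exact neg_eq_of_add_eq_zero_right hj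
  exact (Finset.finite_toSet _).subset this

theorem R14_E_fin {u : Fin 4 → ℝ} {p : Fin 4} (hp : 0 < u p) (z : Z3) (c : Om) (hz : z = 0) :
    {k : ℕ | c ∈ R14_E u p k z}.Finite := by
  classical
  subst hz
  set S := {s : Sta | ∃ j, pt s j = 0} with hS
  have huniq : ∀ s : Sta, {k : ℕ | R14_Fl u c s (ht u 0 - k * u p) ∧
      ¬ R14_Fl u c s (ht u 0 - k * u p + u p)}.Subsingleton := by
    intro s
    have key : ∀ a b : ℕ, a < b → R14_Fl u c s (ht u 0 - a * u p) →
        ¬ R14_Fl u c s (ht u 0 - b * u p + u p) → False := by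
      intro a b hab ha hb
      apply hb
      refine ha.anti ?_
      have h1 : (a : ℝ) + 1 ≤ b := by exact_mod_cast hab
      have h2 := mul_le_mul_of_nonneg_right h1 hp.le
      linarith
    intro a ha b hb
    rcases lt_trichotomy a b with h | h | h
    · exact (key a b h ha.1 hb.2).elim
    · exact h
    · exact (key b a h hb.1 ha.2).elim
  refine (R14_fin_touch.biUnion fun s _ => (huniq s).finite).subset ?_
  rintro k ⟨s, hs, -, -, h1, h2⟩
  rw [Set.mem_iUnion₂]
  exact ⟨s, hs, h1, h2⟩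

theorem R14_cover {u : Fin 4 → ℝ} {p : Fin 4} (hp : 0 < u p) {c : Om} {s : Sta} (htri : tri c s)
    (hinf : Inf c s) {y : ℝ} (hy : R14_Fl u c s y) : ∃ k z, c ∈ R14_E u p k z := by
  classical
  set z := pt s 0 with hz
  have hex : ∃ k : ℕ, R14_Fl u c s (ht u z - k * u p) := by
    obtain ⟨k, hk⟩ := exists_nat_ge ((ht u z - y) / u p)
    refine ⟨k, hy.anti ?_⟩
    rw [div_le_iff₀ hp] at hk
    linarith
  refine ⟨Nat.find hex, z, s, ⟨0, rfl⟩, htri, hinf, Nat.find_spec hex, ?_⟩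
  intro hcon
  rcases Nat.eq_zero_or_pos (Nat.find hex) with h0 | h0
  · rw [h0] at hcon
    have := hcon 0 0
    rw [orb_zero, ← hz] at this
    push_cast at this
    linarith
  · apply Nat.find_min hex (Nat.sub_lt h0 one_pos)
    refine hcon.anti ?_
    have h1 : ((Nat.find hex - 1 : ℕ) : ℝ) = (Nat.find hex : ℝ) - 1 := by
      rw [Nat.cast_sub (show 1 ≤ Nat.find hex from h0), Nat.cast_one]
    rw [h1]
    linarith

/-- R14: a.s. there is no infinite tricolor line whose whole orbit is above some height -/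
theorem no_floored (ν : Measure (Fin 3)) [IsProbabilityMeasure ν] (hν : ∀ i, ν {i} ≠ 0)
    {u : Fin 4 → ℝ} (hu : ∑ i, u i = 0) (hu0 : ∀ i, u i ≠ 0) :
    ∀ᵐ c ∂mu ν, ∀ s, tri c s → Inf c s → ∀ y : ℝ, ∃ n : ℤ, ¬ Up u y (orb c n s) := by
  classical
  obtain ⟨p, hp⟩ : ∃ p, 0 < u p := by
    by_contra hcon
    push Not at hcon
    have h1 : ∀ i ∈ (Finset.univ : Finset (Fin 4)), u i = 0 := by
      rw [← Finset.sum_eq_zero_iff_of_nonpos (fun i _ => hcon i)]
      exact hu
    exact hu0 0 (h1 0 (Finset.mem_univ 0))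
  choose yy hyy hgood using good_thr ν hν u
  have hall : ∀ᵐ c ∂mu ν, ∀ m : ℕ, NoR u (yy m) c := ae_all_iff.2 hgood
  have hstep : ∀ k z, (mu ν) (R14_E u p k z) ≤ (mu ν) (R14_E u p (k + 1) (z + g p)) := by
    intro k z
    apply measure_mono_ae
    filter_upwards [hall] with c hc hE
    obtain ⟨m, hm⟩ := exists_nat_ge (-(ht u z - k * u p))
    refine R14_E_step hu hu0 hp (y := yy m) ?_ (hc m) hE
    have := hyy m
    linarith
  have hshift : ∀ k z, (mu ν) (R14_E u p k z) = (mu ν) (R14_E u p k 0) := by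
    intro k z
    rw [R14_E_shift u p k z]
    exact (mp_shc ν z).measure_preimage (R14_E_meas u p k 0).nullMeasurableSet
  have hmono : Monotone fun k => (mu ν) (R14_E u p k 0) := by
    refine monotone_nat_of_le_succ fun k => ?_
    refine (hstep k 0).trans (le_of_eq ?_)
    exact hshift (k + 1) (0 + g p)
  have hlim : Filter.Tendsto (fun n : ℕ => (mu ν) (⋃ k : ℕ, R14_E u p (n + k) 0)) Filter.atTop
      (nhds ((mu ν) (⋂ n : ℕ, ⋃ k : ℕ, R14_E u p (n + k) 0))) := by
    apply tendsto_measure_iInter_atTop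
    · intro n
      exact (MeasurableSet.iUnion fun k => R14_E_meas u p (n + k) 0).nullMeasurableSet
    · intro a b hab
      apply Set.iUnion_subset
      intro k
      obtain ⟨d, rfl⟩ := Nat.exists_eq_add_of_le hab
      rw [add_assoc]
      exact Set.subset_iUnion (fun k => R14_E u p (a + k) 0) (d + k)
    · exact ⟨0, measure_ne_top _ _⟩
  have hempty : (⋂ n : ℕ, ⋃ k : ℕ, R14_E u p (n + k) 0) = ∅ := by
    rw [Set.eq_empty_iff_forall_notMem]
    intro c hc
    rw [Set.mem_iInter] at hc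
    have hfin := R14_E_fin hp 0 c rfl
    obtain ⟨b, hb⟩ := hfin.bddAbove
    obtain ⟨k, hk⟩ := Set.mem_iUnion.1 (hc (b + 1))
    have := hb hk
    omega
  rw [hempty, measure_empty] at hlim
  have hzero : ∀ k z, (mu ν) (R14_E u p k z) = 0 := by
    intro k z
    rw [hshift]
    apply le_antisymm _ zero_le
    refine ge_of_tendsto hlim ?_
    filter_upwards [Filter.eventually_ge_atTop k] with n hn
    refine (hmono hn).trans ?_
    apply measure_mono
    exact Set.subset_iUnion (fun k => R14_E u p (n + k) 0) 0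
  have hae : ∀ᵐ c ∂mu ν, ∀ k z, c ∉ R14_E u p k z := by
    rw [ae_all_iff]
    intro k
    rw [ae_all_iff]
    intro z
    exact measure_eq_zero_iff_ae_notMem.1 (hzero k z)
  filter_upwards [hae] with c hc s htri hinf y
  by_contra hcon
  push Not at hcon
  obtain ⟨k, z, hkz⟩ := R14_cover hp htri hinf (y := y) hcon
  exact hc k z hkz

end MP514644
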