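import Pool.Agent.Lib.MP_514644_pr.Base

open MeasureTheory

namespace MP514644

theorem fin3_all {a b c : Fin 3} (h1 : a ≠ b) (h2 : b ≠ c) (h3 : a ≠ c) (i : Fin 3) :
    i = a ∨ i = b ∨ i = c := by
  revert a b c i; decide

/-- R16: if some colour has probability zero, there is no tricolor edge -/
theorem no_tri (ν : Measure (Fin 3)) [IsProbabilityMeasure ν] {i : Fin 3} (hi : ν {i} = 0) :
    ∀ᵐ c ∂mu ν, ∀ s, ¬ tri c s := by
  have h1 : ∀ᵐ c ∂mu ν, ∀ z : Z3, c z ≠ i := by
    rw [ae_all_iff]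
    intro z
    have h2 : MeasurePreserving (Function.eval z) (mu ν) ν :=
      measurePreserving_eval_infinitePi (fun _ : Z3 => ν) z
    have h3 : ∀ᵐ a ∂ν, a ≠ i := by
      rw [ae_iff]
      simpa using hi
    exact h2.quasiMeasurePreserving.ae h3
  filter_upwards [h1] with c hc s hs
  rcases fin3_all hs.1 hs.2.1 hs.2.2 i with h | h | h
  · exact hc _ h.symm
  · exact hc _ h.symm
  · exact hc _ h.symm

end MP514644
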