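import Pool.Agent.Lib.MP_514644_pr.R14
import Pool.Agent.Lib.MP_514644_pr.R16

open MeasureTheory

namespace MP514644

/-- the least element of a nonempty set of integers which is bounded below -/
theorem exists_least_int {p : ℤ → Prop} {b : ℤ} (hb : ∀ n, p n → b ≤ n) (h : ∃ n, p n) :
    ∃ n, p n ∧ ∀ m, m < n → ¬ p m := by
  obtain ⟨n, hn, hmin⟩ := Int.exists_least_of_bdd ⟨b, hb⟩ h
  exact ⟨n, hn, fun m hm hp => absurd (hmin m hp) (by omega)⟩

/-- R15: internal form of the main theorem (part 1) -/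
theorem internal_one (ν : Measure (Fin 3)) [IsProbabilityMeasure ν]
    {u : Fin 4 → ℝ} (hu : ∑ i, u i = 0) (hu0 : ∀ i, u i ≠ 0) :
    ∀ᵐ c ∂mu ν, ∀ s, tri c s → Inf c s → ∀ (y : ℝ) (N : ℕ), ∃ n : ℕ, N ≤ n ∧
      ¬ Up u y (orb c (-(n : ℤ)) s) := by
  by_cases hν : ∀ i, ν {i} ≠ 0
  · have h1 := no_floored ν hν hu hu0
    have h2 : ∀ᵐ c ∂mu ν, ∀ m : ℕ, NoR u (good_thr ν hν u m).choose c := by
      rw [ae_all_iff]
      intro m
      exact (good_thr ν hν u m).choose_spec.2
    filter_upwards [h1, h2] with c hc1 hc2 s ht hi y N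
    by_contra hcon
    push Not at hcon
    obtain ⟨m, hm⟩ := exists_nat_gt (-y)
    set y' := (good_thr ν hν u m).choose with hy'
    have hy'm : y' < -(m : ℝ) := (good_thr ν hν u m).choose_spec.1
    have hyy : y' ≤ y := by linarith
    obtain ⟨k, hk⟩ := hc1 s ht hi y'
    have hbd : ∀ n : ℤ, ¬ Up u y' (orb c n s) → -(N : ℤ) ≤ n := by
      intro n hn
      by_contra hlt
      push Not at hlt
      apply hn
      have h3 := hcon n.natAbs (by omega)
      have h4 : (-(n.natAbs : ℤ)) = n := by omega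
      rw [h4] at h3
      exact h3.anti hyy
    obtain ⟨n, hn, hmin⟩ := exists_least_int hbd ⟨k, hk⟩
    refine hc2 m c (by simp [FR]) (orb c n s) ⟨(tri_orb c n s).2 ht, hn, ?_⟩
    intro j hj
    rw [← orb_add]
    exact not_not.1 (hmin _ (by omega))
  · push Not at hν
    obtain ⟨i, hi⟩ := hν
    filter_upwards [no_tri ν hi] with c hc s ht
    exact absurd ht (hc s)

/-- internal form of the main theorem (part 2) -/
theorem internal_two (ν : Measure (Fin 3)) [IsProbabilityMeasure ν] (u : Fin 4 → ℝ) :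
    ∀ᵐ y : ℝ, ∀ᵐ c ∂mu ν, ∀ s, ¬ Rb u y c s := by
  by_cases hν : ∀ i, ν {i} ≠ 0
  · exact claimA ν hν u
  · push Not at hν
    obtain ⟨i, hi⟩ := hν
    refine Filter.Eventually.of_forall (fun y => ?_)
    filter_upwards [no_tri ν hi] with c hc s ht
    exact hc s ht.1

end MP514644
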