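import Pool.Agent.Lib.MP_514644_pr.Base
import Pool.Agent.Lib.MP_514644_pr.Defs

open MeasureTheory

namespace MP514644

/-- R17: the linear isomorphism between the internal model and the cells -/
def phi : Z3 ≃ Cell where
  toFun z := ⟨![-z.1 + z.2.1 + z.2.2, z.1 - z.2.1 + z.2.2, z.1 + z.2.1 - z.2.2], by
    intro i j
    fin_cases i <;> fin_cases j <;>
      simp only [Fin.zero_eta, Fin.mk_one, Fin.reduceFinMk, Matrix.cons_val] <;> omega⟩
  invFun x := ((x.1 1 + x.1 2) / 2, (x.1 0 + x.1 2) / 2, (x.1 0 + x.1 1) / 2)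
  left_inv := by
    rintro ⟨a, b, c⟩
    simp only [Matrix.cons_val, Prod.mk.injEq]
    refine ⟨?_, ?_, ?_⟩ <;> omega
  right_inv := by
    rintro ⟨x, hx⟩
    have h01 := hx 0 1
    have h02 := hx 0 2
    apply Subtype.ext
    funext i
    fin_cases i <;>
      simp only [Fin.zero_eta, Fin.mk_one, Fin.reduceFinMk, Matrix.cons_val] <;> omega

theorem phi_zero (z : Z3) : (phi z).1 0 = -z.1 + z.2.1 + z.2.2 := rfl

theorem phi_one (z : Z3) : (phi z).1 1 = z.1 - z.2.1 + z.2.2 := rfl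

theorem phi_two (z : Z3) : (phi z).1 2 = z.1 + z.2.1 - z.2.2 := rfl

theorem mp_phi (ν : Measure (Fin 3)) [IsProbabilityMeasure ν] :
    MeasurePreserving (fun (c : Cell → Fin 3) (z : Z3) => c (phi z)) (law ν) (mu ν) := by
  refine ⟨measurable_pi_lambda _ fun z => measurable_pi_apply _, ?_⟩
  unfold law mu
  have h := Measure.infinitePi_map_piCongrLeft (μ := fun _ : Z3 => ν) phi.symm
  rw [← h]
  congr 1
  funext c z
  rw [MeasurableEquiv.coe_piCongrLeft]
  have := Equiv.piCongrLeft_apply_apply (fun _ : Z3 => Fin 3) phi.symm c (phi z)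
  rw [Equiv.symm_apply_apply] at this
  exact this.symm

/-- the internal slopes of the functional `x ↦ v · x` -/
noncomputable def slope (v : Fin 3 → ℝ) : Fin 4 → ℝ :=
  ![-v 0 + v 1 + v 2, v 0 - v 1 + v 2, v 0 + v 1 - v 2, -v 0 - v 1 - v 2]

theorem slope_sum (v : Fin 3 → ℝ) : ∑ i, slope v i = 0 := by
  rw [Fin.sum_univ_four]
  simp only [slope, Matrix.cons_val]
  ring

theorem dot_phi (v : Fin 3 → ℝ) (z : Z3) : dot v (phi z) = ht (slope v) z := by
  unfold dot
  rw [Fin.sum_univ_three, phi_zero, phi_one, phi_two]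
  simp only [ht, slope, Matrix.cons_val]
  push_cast
  ring

theorem slope_ne {v : Fin 3 → ℝ}
    (hv : ∀ ε : Fin 3 → ℝ, (∀ i, ε i = 1 ∨ ε i = -1) → ∑ i, v i * ε i ≠ 0) (i : Fin 4) :
    slope v i ≠ 0 := by
  have key : ∀ a b c : ℝ, (a = 1 ∨ a = -1) → (b = 1 ∨ b = -1) → (c = 1 ∨ c = -1) →
      v 0 * a + v 1 * b + v 2 * c ≠ 0 := by
    intro a b c ha hb hc
    have h := hv ![a, b, c] (by
      intro j
      fin_cases j
      · exact ha
      · exact hb
      · exact hc)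
    rw [Fin.sum_univ_three] at h
    exact h
  fin_cases i
  · have h := key (-1) 1 1 (Or.inr rfl) (Or.inl rfl) (Or.inl rfl)
    change -v 0 + v 1 + v 2 ≠ 0
    intro h0; apply h; linarith
  · have h := key 1 (-1) 1 (Or.inl rfl) (Or.inr rfl) (Or.inl rfl)
    change v 0 - v 1 + v 2 ≠ 0
    intro h0; apply h; linarith
  · have h := key 1 1 (-1) (Or.inl rfl) (Or.inl rfl) (Or.inr rfl)
    change v 0 + v 1 - v 2 ≠ 0
    intro h0; apply h; linarith
  · have h := key (-1) (-1) (-1) (Or.inr rfl) (Or.inr rfl) (Or.inr rfl)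
    change -v 0 - v 1 - v 2 ≠ 0
    intro h0; apply h; linarith

theorem adj_phi {x y : Z3} (h : CAdj (phi x) (phi y)) : adjZ (y - x) := by
  obtain ⟨a, b, c⟩ := x
  obtain ⟨a', b', c'⟩ := y
  unfold CAdj at h
  unfold adjZ
  simp only [Prod.mk_sub_mk, ne_eq, Prod.mk_eq_zero]
  rcases h with ⟨i, hi, hj⟩ | h
  · have h0 := hj 0
    have h1 := hj 1
    have h2 := hj 2
    fin_cases i <;>
      simp only [Fin.zero_eta, Fin.mk_one, Fin.reduceFinMk, Fin.isValue, ne_eq, Fin.reduceEq,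
        not_false_eq_true, forall_const, not_true_eq_false, IsEmpty.forall_iff,
        zero_ne_one, one_ne_zero, phi_zero, phi_one, phi_two] at hi h0 h1 h2 <;>
      (rcases abs_eq (by norm_num : (0:ℤ) ≤ 2) |>.1 hi with h3 | h3 <;> omega)
  · have h0 := h 0
    have h1 := h 1
    have h2 := h 2
    simp only [phi_zero, phi_one, phi_two] at h0 h1 h2
    rcases abs_eq (by norm_num : (0:ℤ) ≤ 1) |>.1 h0 with h3 | h3 <;>
    rcases abs_eq (by norm_num : (0:ℤ) ≤ 1) |>.1 h1 with h4 | h4 <;>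
    rcases abs_eq (by norm_num : (0:ℤ) ≤ 1) |>.1 h2 with h5 | h5 <;> omega

end MP514644
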