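import Pool.Agent.Lib.MP_514644_pr.Base

namespace MP514644

/-- the fourteen neighbours of the origin -/
def V14 : List Z3 :=
  [(1,0,0), (0,1,0), (0,0,1), (1,1,0), (1,0,1), (0,1,1), (1,1,1),
   (-1,0,0), (0,-1,0), (0,0,-1), (-1,-1,0), (-1,0,-1), (0,-1,-1), (-1,-1,-1)]

theorem mem_V14 {d : Z3} (h : adjZ d) : d ∈ V14 := by
  obtain ⟨x, y, z⟩ := d
  obtain ⟨h0, h | h⟩ := h
  · obtain ⟨h1, h2, h3, h4, h5, h6⟩ := h
    simp only at h1 h2 h3 h4 h5 h6
    interval_cases x <;> interval_cases y <;> interval_cases z <;>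
      first
        | exact absurd rfl h0
        | decide
  · obtain ⟨h1, h2, h3, h4, h5, h6⟩ := h
    simp only at h1 h2 h3 h4 h5 h6
    interval_cases x <;> interval_cases y <;> interval_cases z <;>
      first
        | exact absurd rfl h0
        | decide

theorem kuhn_check : ∀ a ∈ V14, ∀ b ∈ V14, adjZ (b - a) → ∀ d ∈ V14,
    adjZ (d - b) → adjZ (d - a) →
    ∃ π : Equiv.Perm (Fin 4),
      ({a, b, d} : Finset Z3) = {g (π 0), g (π 0) + g (π 1), -g (π 3)} := by
  decide +kernel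

/-- R18: Kuhn's classification of the tetrahedra -/
theorem kuhn_diff {a b d : Z3} (ha : adjZ a) (hb : adjZ b) (hd : adjZ d)
    (hab : adjZ (b - a)) (hbd : adjZ (d - b)) (had : adjZ (d - a)) :
    ∃ π : Equiv.Perm (Fin 4), ({a, b, d} : Finset Z3) = {g (π 0), g (π 0) + g (π 1), -g (π 3)} :=
  kuhn_check a (mem_V14 ha) b (mem_V14 hb) hab d (mem_V14 hd) hbd had

theorem kuhn {e q : Finset Z3} (he : e.card = 3) (hq : q.card = 4) (heq : e ⊆ q)
    (hc : Cliq q) : ∃ s : Sta, tet s = q ∧ ent s = e := by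
  obtain ⟨w, hw⟩ : ∃ w, q \ e = {w} := by
    rw [← Finset.card_eq_one, Finset.card_sdiff_of_subset heq, he, hq]
  have hwq : w ∈ q \ e := by rw [hw]; exact Finset.mem_singleton_self w
  rw [Finset.mem_sdiff] at hwq
  have hqe : q = insert w e := by
    rw [← Finset.sdiff_union_of_subset heq, hw]
    ext z; simp
  obtain ⟨x, y, z, hxy, hxz, hyz, rfl⟩ := Finset.card_eq_three.1 he
  have hx : x ∈ q := heq (by simp)
  have hy : y ∈ q := heq (by simp)
  have hz : z ∈ q := heq (by simp)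
  have hwx : w ≠ x := fun h => hwq.2 (by simp [h])
  have hwy : w ≠ y := fun h => hwq.2 (by simp [h])
  have hwz : w ≠ z := fun h => hwq.2 (by simp [h])
  obtain ⟨π, hπ⟩ := kuhn_diff (a := x - w) (b := y - w) (d := z - w)
    (hc w hwq.1 x hx hwx) (hc w hwq.1 y hy hwy) (hc w hwq.1 z hz hwz)
    (by rw [sub_sub_sub_cancel_right]; exact hc x hx y hy hxy)
    (by rw [sub_sub_sub_cancel_right]; exact hc y hy z hz hyz)
    (by rw [sub_sub_sub_cancel_right]; exact hc x hx z hz hxz)
  have hent : ent (w, π) = {x, y, z} := by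
    have h1 : Finset.image (fun t => w + t) ({x - w, y - w, z - w} : Finset Z3)
        = Finset.image (fun t => w + t) {g (π 0), g (π 0) + g (π 1), -g (π 3)} := by rw [hπ]
    simp only [Finset.image_insert, Finset.image_singleton, add_sub_cancel] at h1
    rw [h1]
    simp only [ent, pt_one, pt_two, pt_three, ← sub_eq_add_neg, add_assoc]
  refine ⟨(w, π), ?_, hent⟩
  rw [hqe, ← hent]
  rfl

end MP514644
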