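import Pool.Agent.Lib.MP_514644_pr.Base

namespace MP514644

theorem ent_mv_zero (s : Sta) : ent (mv 0 s) = ent s := by
  unfold ent
  rw [pt_mv 0 1 (by decide), pt_mv 0 2 (by decide), pt_mv 0 3 (by decide)]
  simp

theorem pt_inj_zero : ∀ π : Equiv.Perm (Fin 4), Function.Injective (pt (0, π)) := by
  decide +kernel

theorem sta_eq_sh (s : Sta) : s = sh s.1 (0, s.2) := by
  refine Prod.ext ?_ rfl
  change s.1 = 0 + s.1
  rw [zero_add]

theorem pt_inj (s : Sta) : Function.Injective (pt s) := by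
  intro a b h
  rw [sta_eq_sh s, pt_sh, pt_sh] at h
  exact pt_inj_zero s.2 (add_right_cancel h)

theorem tet_eq_image (s : Sta) : tet s = Finset.univ.image (pt s) := by
  ext z
  simp only [tet, Finset.mem_insert, Finset.mem_singleton, Finset.mem_image, Finset.mem_univ,
    true_and]
  constructor
  · rintro (h | h | h | h)
    · exact ⟨0, h.symm⟩
    · exact ⟨1, h.symm⟩
    · exact ⟨2, h.symm⟩
    · exact ⟨3, h.symm⟩
  · rintro ⟨k, hk⟩
    subst hk
    fin_cases k
    · exact Or.inl rfl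
    · exact Or.inr (Or.inl rfl)
    · exact Or.inr (Or.inr (Or.inl rfl))
    · exact Or.inr (Or.inr (Or.inr rfl))

theorem ent_eq_image (s : Sta) : ent s = (Finset.univ.erase 0).image (pt s) := by
  ext z
  simp only [ent, Finset.mem_insert, Finset.mem_singleton, Finset.mem_image, Finset.mem_univ,
    Finset.mem_erase, and_true]
  constructor
  · rintro (h | h | h)
    · exact ⟨1, by decide, h.symm⟩
    · exact ⟨2, by decide, h.symm⟩
    · exact ⟨3, by decide, h.symm⟩
  · rintro ⟨k, hk0, hk⟩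
    subst hk
    fin_cases k
    · exact absurd rfl hk0
    · exact Or.inl rfl
    · exact Or.inr (Or.inl rfl)
    · exact Or.inr (Or.inr rfl)

theorem ent_card (s : Sta) : (ent s).card = 3 := by
  rw [ent_eq_image, Finset.card_image_of_injective _ (pt_inj s)]
  rfl

theorem tet_card (s : Sta) : (tet s).card = 4 := by
  rw [tet_eq_image, Finset.card_image_of_injective _ (pt_inj s)]
  rfl

theorem ent_mv {j : Fin 4} (s : Sta) : ent (mv j s) = tet s \ {pt s j} := by
  rw [tet_eq_image, ent_eq_image]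
  ext z
  simp only [Finset.mem_image, Finset.mem_erase, Finset.mem_univ, and_true, Finset.mem_sdiff,
    Finset.mem_singleton, true_and]
  constructor
  · rintro ⟨k, hk0, hk⟩
    subst hk
    rw [pt_mv j k hk0]
    refine ⟨⟨k + j, rfl⟩, fun h => hk0 ?_⟩
    have := pt_inj s h
    simpa using this
  · rintro ⟨⟨k, hk⟩, hz⟩
    subst hk
    have hkj : k - j ≠ 0 := fun h => hz (by rw [sub_eq_zero.1 h])
    exact ⟨k - j, hkj, by rw [pt_mv j _ hkj, sub_add_cancel]⟩

theorem ent_sh (t : Z3) (s : Sta) : ent (sh t s) = (ent s).image (fun z => z + t) := by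
  simp only [ent, pt_sh, Finset.image_insert, Finset.image_singleton]

theorem ent_eq_fin : ∀ π π' : Equiv.Perm (Fin 4), ∀ i : Fin 4, i ≠ 0 →
    (∀ k : Fin 4, k ≠ 0 → ∃ l : Fin 4, l ≠ 0 ∧
      pt (pt (0, π) i - g (π' 0), π') k = pt (0, π) l) →
      ((pt (0, π) i - g (π' 0), π') : Sta) = (0, π) ∨
        ((pt (0, π) i - g (π' 0), π') : Sta) = mv 0 (0, π) := by
  decide +kernel

/-- R19: two states with the same entry face -/
theorem ent_eq {s s' : Sta} (h : ent s' = ent s) : s' = s ∨ s' = mv 0 s := by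
  have hs : s = sh s.1 (0, s.2) := sta_eq_sh s
  have hs' : s' = sh s.1 (s'.1 - s.1, s'.2) := by
    refine Prod.ext ?_ rfl
    change s'.1 = s'.1 - s.1 + s.1
    rw [sub_add_cancel]
  have h1 : ent (s'.1 - s.1, s'.2) = ent (0, s.2) := by
    have h2 : ent (sh s.1 (s'.1 - s.1, s'.2)) = ent (sh s.1 (0, s.2)) := by
      rw [← hs, ← hs', h]
    rw [ent_sh, ent_sh] at h2
    exact Finset.image_injective (add_left_injective s.1) h2
  have h3 : pt (s'.1 - s.1, s'.2) 1 ∈ ent (0, s.2) := by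
    rw [← h1]
    simp [ent]
  rw [ent_eq_image] at h3
  simp only [Finset.mem_image, Finset.mem_erase, Finset.mem_univ, and_true] at h3
  obtain ⟨i, hi0, hi⟩ := h3
  have h4 : s'.1 - s.1 = pt (0, s.2) i - g (s'.2 0) := by
    rw [hi, pt_one]
    change _ = s'.1 - s.1 + g (s'.2 0) - g (s'.2 0)
    rw [add_sub_cancel_right]
  have h5 := ent_eq_fin s.2 s'.2 i hi0
  rw [← h4] at h5
  have h7 : ∀ k : Fin 4, k ≠ 0 → ∃ l : Fin 4, l ≠ 0 ∧
      pt (s'.1 - s.1, s'.2) k = pt (0, s.2) l := by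
    intro k hk
    have h8 : pt (s'.1 - s.1, s'.2) k ∈ ent (0, s.2) := by
      rw [← h1, ent_eq_image]
      exact Finset.mem_image_of_mem _ (Finset.mem_erase.2 ⟨hk, Finset.mem_univ _⟩)
    rw [ent_eq_image, Finset.mem_image] at h8
    obtain ⟨l, hl, he⟩ := h8
    exact ⟨l, (Finset.mem_erase.1 hl).1, he.symm⟩
  rcases h5 h7 with h6 | h6
  · left
    rw [hs', h6, ← hs]
  · right
    rw [hs', h6]
    conv_rhs => rw [hs]
    rw [mv_sh]

end MP514644
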