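import Pool.Agent.Lib.MP_514644_pr.R18
import Pool.Agent.Lib.MP_514644_pr.R19

namespace MP514644

theorem R20_tet_eq (s : Sta) : tet s = insert (pt s 0) (ent s) := rfl

theorem R20_mem_tet {s : Sta} {x : Z3} (h : x ∈ tet s) : ∃ i : Fin 4, x = pt s i := by
  simp only [tet, Finset.mem_insert, Finset.mem_singleton] at h
  rcases h with h | h | h | h
  · exact ⟨0, h⟩
  · exact ⟨1, h⟩
  · exact ⟨2, h⟩
  · exact ⟨3, h⟩

theorem R20_pt_mem (s : Sta) (i : Fin 4) : pt s i ∈ tet s := by
  simp only [tet, Finset.mem_insert, Finset.mem_singleton]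
  fin_cases i <;> simp

theorem R20_ent_eq_sdiff (s : Sta) : ent s = tet s \ {pt s 0} := by
  rw [R20_tet_eq, Finset.sdiff_singleton_eq_erase, Finset.erase_insert]
  intro h
  simp only [ent, Finset.mem_insert, Finset.mem_singleton] at h
  rcases h with h | h | h
  · exact absurd (pt_inj s h) (by decide)
  · exact absurd (pt_inj s h) (by decide)
  · exact absurd (pt_inj s h) (by decide)

/-- R20: a face of a tricolor state which is tricolor and not the entry face is the exit face -/
theorem exit_face {c : Om} {s : Sta} (h : tri c s) {e : Finset Z3} (he : e.card = 3)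
    (hs : e ⊆ tet s) (hc : ∀ x ∈ e, ∀ y ∈ e, c x = c y → x = y) (hne : e ≠ ent s) :
    e = ent (nxt c s) := by
  have h1 : (tet s \ e).card = 1 := by
    rw [Finset.card_sdiff_of_subset hs, tet_card, he]
  obtain ⟨x, hx⟩ := Finset.card_eq_one.1 h1
  have hxt : x ∈ tet s := by
    have : x ∈ tet s \ e := by rw [hx]; exact Finset.mem_singleton_self x
    exact (Finset.mem_sdiff.1 this).1
  obtain ⟨i, rfl⟩ := R20_mem_tet hxt
  have hee : e = tet s \ {pt s i} := by
    rw [← hx, Finset.sdiff_sdiff_eq_self hs]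
  have hi : i ≠ 0 := by
    rintro rfl
    exact hne (hee.trans (R20_ent_eq_sdiff s).symm)
  obtain ⟨j, hj, hcj, hn⟩ := nxt_spec h
  have hij : i = j := by
    by_contra hij
    have m0 : pt s 0 ∈ e := by
      rw [hee, Finset.mem_sdiff, Finset.mem_singleton]
      exact ⟨R20_pt_mem s 0, fun h' => hi (pt_inj s h').symm⟩
    have mj : pt s j ∈ e := by
      rw [hee, Finset.mem_sdiff, Finset.mem_singleton]
      exact ⟨R20_pt_mem s j, fun h' => hij (pt_inj s h').symm⟩
    exact hj (pt_inj s (hc _ mj _ m0 hcj))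
  rw [hn, ent_mv, ← hij]
  exact hee

theorem R20_tet_mv (j : Fin 4) (s : Sta) : tet (mv 0 (mv j s)) = tet s := by
  have h0 : pt (mv 0 (mv j s)) 0 = pt s j := by
    have hs := g_sum s.2
    obtain ⟨w, π⟩ := s
    have h3 : g (π 3) = -(g (π 0) + g (π 1) + g (π 2)) := by
      have : g (π 3) = (g (π 0) + g (π 1) + g (π 2) + g (π 3))
          - (g (π 0) + g (π 1) + g (π 2)) := by abel
      rw [this, hs, zero_sub]
    fin_cases j
    · rw [show ((⟨0, by decide⟩ : Fin 4)) = 0 from rfl, mv_zero_mv_zero]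
    all_goals
      simp [pt, mv, sg, h3] <;> abel
  rw [R20_tet_eq, ent_mv_zero, ent_mv, h0]
  exact Finset.insert_sdiff_self_of_mem (R20_pt_mem s j)

theorem R20_tet_nxt {c : Om} {s : Sta} (h : tri c s) : tet (mv 0 (nxt c s)) = tet s := by
  obtain ⟨j, -, -, hn⟩ := nxt_spec h
  rw [hn, R20_tet_mv]

theorem R20_mv_orb (c : Om) (n : ℕ) (s : Sta) :
    mv 0 (orb c (n : ℤ) s) = orb c (-(n : ℤ)) (mv 0 s) := by
  induction n with
  | zero => rw [Nat.cast_zero, neg_zero, orb_zero, orb_zero]
  | succ n ih =>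
    apply (T c).injective
    change nxt c (mv 0 (orb c ((n + 1 : ℕ) : ℤ) s)) = nxt c (orb c (-((n + 1 : ℕ) : ℤ)) (mv 0 s))
    rw [← orb_succ, Nat.cast_succ, orb_succ, nxt_rev, ih]
    congr 1
    ring

theorem R20_tri {c : Om} {s : Sta} (h : ∀ x ∈ ent s, ∀ y ∈ ent s, c x = c y → x = y) :
    tri c s := by
  have m1 : pt s 1 ∈ ent s := by simp [ent]
  have m2 : pt s 2 ∈ ent s := by simp [ent]
  have m3 : pt s 3 ∈ ent s := by simp [ent]
  exact ⟨fun he => absurd (pt_inj s (h _ m1 _ m2 he)) (by decide),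
    fun he => absurd (pt_inj s (h _ m2 _ m3 he)) (by decide),
    fun he => absurd (pt_inj s (h _ m1 _ m3 he)) (by decide)⟩

/-- R20: tricolor paths are orbits -/
theorem path_orb {c : Om} {f : ℕ → Finset Z3} (hf : Function.Injective f)
    (hcard : ∀ n, (f n).card = 3) (hcol : ∀ n, ∀ x ∈ f n, ∀ y ∈ f n, c x = c y → x = y)
    (hq : ∀ n, ∃ q : Finset Z3, q.card = 4 ∧ Cliq q ∧ f n ⊆ q ∧ f (n + 1) ⊆ q) :
    ∃ s : Sta, tri c s ∧ Inf c s ∧ ∀ n : ℕ, tet (orb c (-(n : ℤ)) s) = f n ∪ f (n + 1) := by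
  -- the common clique is the union
  have hun : ∀ n, (f n ∪ f (n + 1)).card = 4 ∧ Cliq (f n ∪ f (n + 1)) := by
    intro n
    obtain ⟨q, hq4, hqc, h1, h2⟩ := hq n
    have hsub : f n ∪ f (n + 1) ⊆ q := Finset.union_subset h1 h2
    have hle : (f n ∪ f (n + 1)).card ≤ 4 := hq4 ▸ Finset.card_le_card hsub
    have hge : 4 ≤ (f n ∪ f (n + 1)).card := by
      by_contra hlt
      have h3 : (f n ∪ f (n + 1)).card ≤ 3 := by omega
      have e1 : f n = f n ∪ f (n + 1) :=
        Finset.eq_of_subset_of_card_le Finset.subset_union_left (by rw [hcard]; exact h3)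
      have e2 : f (n + 1) = f n ∪ f (n + 1) :=
        Finset.eq_of_subset_of_card_le Finset.subset_union_right (by rw [hcard]; exact h3)
      have := hf (e1.trans e2.symm)
      omega
    have he : f n ∪ f (n + 1) = q := Finset.eq_of_subset_of_card_le hsub (by rw [hq4]; exact hge)
    exact ⟨by omega, he ▸ hqc⟩
  obtain ⟨s, hts, hes⟩ := kuhn (hcard 1) (hun 0).1 Finset.subset_union_right (hun 0).2
  have htri : tri c s := R20_tri (by rw [hes]; exact hcol 1)
  have htri' : ∀ n : ℤ, tri c (orb c n (mv 0 s)) := fun n => by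
    rw [tri_orb, tri_mv_zero]; exact htri
  have key : ∀ n : ℕ, ent (orb c (n : ℤ) (mv 0 s)) = f (n + 1) ∧
      tet (mv 0 (orb c (n : ℤ) (mv 0 s))) = f n ∪ f (n + 1) := by
    intro n
    induction n with
    | zero =>
      rw [Nat.cast_zero, orb_zero, ent_mv_zero, mv_zero_mv_zero]
      exact ⟨hes, hts⟩
    | succ n ih =>
      obtain ⟨ih1, ih2⟩ := ih
      obtain ⟨s', ht', he'⟩ := kuhn (hcard (n + 1)) (hun (n + 1)).1 Finset.subset_union_left
        (hun (n + 1)).2
      have hsub : f (n + 2) ⊆ tet s' := by rw [ht']; exact Finset.subset_union_right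
      have hne2 : f (n + 2) ≠ f (n + 1) := fun h => by have := hf h; omega
      have hs' : s' = orb c (n : ℤ) (mv 0 s) := by
        rcases ent_eq (he'.trans ih1.symm) with h | h
        · exact h
        · exfalso
          have hm : ent (mv 0 (orb c (n : ℤ) (mv 0 s))) = f (n + 1) := by
            rw [ent_mv_zero, ih1]
          have htm : tri c (mv 0 (orb c (n : ℤ) (mv 0 s))) := tri_mv_zero.2 (htri' n)
          have a1 := exit_face htm (hcard (n + 2)) (by rw [← h]; exact hsub) (hcol (n + 2))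
            (by rw [hm]; exact hne2)
          have a2 := exit_face htm (hcard n) (by rw [ih2]; exact Finset.subset_union_left)
            (hcol n) (by rw [hm]; exact fun h => by have := hf h; omega)
          have := hf (a2.trans a1.symm)
          omega
      have hex := exit_face (htri' n) (hcard (n + 2)) (by rw [← hs']; exact hsub) (hcol (n + 2))
        (by rw [ih1]; exact hne2)
      rw [Nat.cast_succ, orb_succ]
      refine ⟨hex.symm, ?_⟩
      rw [R20_tet_nxt (htri' n), ← hs', ht']
  have hent : ∀ n : ℕ, ent (orb c (-(n : ℤ)) s) = f (n + 1) := by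
    intro n
    have h := R20_mv_orb c n (mv 0 s)
    rw [mv_zero_mv_zero] at h
    rw [← h, ent_mv_zero]
    exact (key n).1
  refine ⟨s, htri, ?_, ?_⟩
  · have aux : ∀ m : ℕ, orb c (-(m : ℤ)) s = s → m = 0 := by
      intro m hm
      have h1 := hent m
      rw [hm, hes] at h1
      have := hf h1
      omega
    intro n hn
    obtain ⟨m, rfl | rfl⟩ := n.eq_nat_or_neg
    · have : orb c (-(m : ℤ)) s = s := by
        conv_lhs => rw [← hn]
        exact orb_neg_orb c _ s
      rw [aux m this, Nat.cast_zero]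
    · rw [aux m hn, Nat.cast_zero, neg_zero]
  · intro n
    have h := R20_mv_orb c n (mv 0 s)
    rw [mv_zero_mv_zero] at h
    rw [← h]
    exact (key n).2

end MP514644
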