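import Pool.Agent.Lib.MP_514644_pr.R17
import Pool.Agent.Lib.MP_514644_pr.R20

namespace MP514644

/-- R21: from public paths to orbits -/
theorem pub_path {c : Cell → Fin 3} {e : ℕ → Finset Cell} (h : InfPath c e) :
    ∃ s : Sta, tri (fun z => c (phi z)) s ∧ Inf (fun z => c (phi z)) s ∧
      ∀ n : ℕ, ∀ z : Z3, z ∈ tet (orb (fun z => c (phi z)) (-(n : ℤ)) s) ↔
        (phi z ∈ e n ∨ phi z ∈ e (n + 1)) := by
  classical
  obtain ⟨hinj, htri, hvert⟩ := h
  set F : Finset Cell → Finset Z3 := fun q => q.map phi.symm.toEmbedding with hF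
  have hmem : ∀ q z, z ∈ F q ↔ phi z ∈ q := by
    intro q z
    simp only [hF, Finset.mem_map_equiv, Equiv.symm_symm]
  have hcard : ∀ q, (F q).card = q.card := fun q => Finset.card_map _
  have hFinj : Function.Injective F := Finset.map_injective _
  obtain ⟨s, hs1, hs2, hs3⟩ := path_orb (c := fun z => c (phi z)) (f := fun n => F (e n))
    (hFinj.comp hinj) (fun n => by rw [hcard]; exact (htri n).1.1)
    (fun n x hx y hy hxy => phi.injective ((htri n).2 _ ((hmem _ _).1 hx) _ ((hmem _ _).1 hy) hxy))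
    (fun n => by
      obtain ⟨q, hq, h1, h2⟩ := hvert n
      refine ⟨F q, by rw [hcard]; exact hq.1.1, ?_, ?_, ?_⟩
      · intro x hx y hy hxy
        exact adj_phi (hq.1.2 _ ((hmem _ _).1 hx) _ ((hmem _ _).1 hy)
          (fun h => hxy (phi.injective h)))
      · intro z hz
        rw [hmem] at hz ⊢
        exact h1 hz
      · intro z hz
        rw [hmem] at hz ⊢
        exact h2 hz)
  refine ⟨s, hs1, hs2, fun n z => ?_⟩
  rw [hs3 n, Finset.mem_union, hmem, hmem]

end MP514644
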