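import Pool.Agent.Lib.MP_514644_pr.R15
import Pool.Agent.Lib.MP_514644_pr.R21

open MeasureTheory

namespace MP514644

theorem pt_mem_tet (s : Sta) (k : Fin 4) : pt s k ∈ tet s := by
  fin_cases k <;> simp [tet]

theorem mem_tet_iff (s : Sta) (z : Z3) : z ∈ tet s ↔ ∃ k, pt s k = z := by
  constructor
  · intro h
    simp only [tet, Finset.mem_insert, Finset.mem_singleton] at h
    rcases h with h | h | h | h
    exacts [⟨0, h.symm⟩, ⟨1, h.symm⟩, ⟨2, h.symm⟩, ⟨3, h.symm⟩]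
  · rintro ⟨k, rfl⟩
    exact pt_mem_tet s k

theorem final_half (ν : Measure (Fin 3)) [IsProbabilityMeasure ν] (v : Fin 3 → ℝ)
    (hv : ∀ ε : Fin 3 → ℝ, (∀ i, ε i = 1 ∨ ε i = -1) → ∑ i, v i * ε i ≠ 0) :
    ∀ᵐ c ∂law ν, ∀ e, InfPath c e → ∀ (s : ℝ) (N : ℕ), ∃ n, N ≤ n ∧ ∃ x ∈ e n, dot v x < s := by
  have h := (mp_phi ν).quasiMeasurePreserving.ae (internal_one ν (slope_sum v) (slope_ne hv))
  filter_upwards [h] with c hc e he s N
  obtain ⟨σ, ht, hi, htet⟩ := pub_path he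
  obtain ⟨n, hn, hup⟩ := hc σ ht hi s N
  simp only [Up, not_forall, not_le] at hup
  obtain ⟨k, hk⟩ := hup
  rcases (htet n _).1 (pt_mem_tet _ k) with h1 | h1
  · exact ⟨n, hn, _, h1, by rw [dot_phi]; exact hk⟩
  · exact ⟨n + 1, by omega, _, h1, by rw [dot_phi]; exact hk⟩

/-- R22: final theorem, part 1 -/
theorem final_one (ν : Measure (Fin 3)) [IsProbabilityMeasure ν] (v : Fin 3 → ℝ)
    (hv : ∀ ε : Fin 3 → ℝ, (∀ i, ε i = 1 ∨ ε i = -1) → ∑ i, v i * ε i ≠ 0) :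
    ∀ᵐ c ∂law ν, ∀ e, InfPath c e → ∀ (s : ℝ) (N : ℕ),
      (∃ n, N ≤ n ∧ ∃ x ∈ e n, dot v x < s) ∧ (∃ n, N ≤ n ∧ ∃ x ∈ e n, s < dot v x) := by
  have hv' : ∀ ε : Fin 3 → ℝ, (∀ i, ε i = 1 ∨ ε i = -1) → ∑ i, (-v) i * ε i ≠ 0 := by
    intro ε hε h
    apply hv ε hε
    simp only [Pi.neg_apply, neg_mul, Finset.sum_neg_distrib, neg_eq_zero] at h
    exact h
  filter_upwards [final_half ν v hv, final_half ν (-v) hv'] with c h1 h2 e he s N
  refine ⟨h1 e he s N, ?_⟩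
  obtain ⟨n, hn, x, hx, hd⟩ := h2 e he (-s) N
  refine ⟨n, hn, x, hx, ?_⟩
  have : dot (-v) x = - dot v x := by simp [dot]
  rw [this] at hd
  linarith

/-- R22: final theorem, part 2 -/
theorem final_two (ν : Measure (Fin 3)) [IsProbabilityMeasure ν] (v : Fin 3 → ℝ) :
    ∀ᵐ s : ℝ, ∀ᵐ c ∂law ν, ∀ e, InfPath c e → (∃ n, ∃ x ∈ e n, dot v x < s) →
      ∀ N : ℕ, ∃ n, N ≤ n ∧ ∃ x ∈ e n, dot v x < s := by
  filter_upwards [internal_two ν (slope v)] with s hs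
  filter_upwards [(mp_phi ν).quasiMeasurePreserving.ae hs] with c hc e he hex N
  by_contra hcon
  push Not at hcon
  obtain ⟨σ, ht, hi, htet⟩ := pub_path he
  -- the last edge with a cell below `s`
  obtain ⟨n0, hn0, hmax⟩ : ∃ n, (∃ x ∈ e n, dot v x < s) ∧
      ∀ m, n < m → ∀ x ∈ e m, s ≤ dot v x := by
    have hfin : {n | ∃ x ∈ e n, dot v x < s}.Finite := by
      apply (Set.finite_lt_nat N).subset
      rintro n ⟨x, hx, hd⟩
      by_contra hn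
      exact absurd (hcon n (not_lt.1 hn) x hx) (not_le.2 hd)
    obtain ⟨n, hn⟩ := hex
    obtain ⟨n0, h0, h1⟩ := hfin.exists_maximal ⟨n, hn⟩
    refine ⟨n0, h0, fun m hm x hx => ?_⟩
    by_contra hlt
    have := h1 (y := m) ⟨x, hx, not_le.1 hlt⟩ hm.le
    omega
  apply hc (orb _ (-(n0 : ℤ)) σ)
  refine ⟨(tri_orb _ _ σ).2 ht, ?_, ?_⟩
  · intro hup
    obtain ⟨x, hx, hd⟩ := hn0
    have hx' : phi.symm x ∈ tet (orb (fun z => c (phi z)) (-(n0 : ℤ)) σ) :=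
      (htet n0 _).2 (Or.inl (by rw [Equiv.apply_symm_apply]; exact hx))
    obtain ⟨k, hk⟩ := (mem_tet_iff _ _).1 hx'
    have h1 := hup k
    rw [hk, ← dot_phi, Equiv.apply_symm_apply] at h1
    linarith
  · intro n hn k
    rw [← orb_add]
    have h2 : (-n + -(n0 : ℤ)) = -((n.toNat + n0 : ℕ) : ℤ) := by push_cast; omega
    rw [h2, ← dot_phi]
    rcases (htet (n.toNat + n0) _).1 (pt_mem_tet _ k) with h1 | h1
    · exact hmax _ (by omega) _ h1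
    · exact hmax _ (by omega) _ h1

end MP514644
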